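import Pool.Agent.R864.CSH.Defs2

/-!
Counting connected components.
-/

namespace Pool.Agent.R864.CSH

open Finset

variable {n : ℕ}

/-- The number of components of `([n], F)`. -/
noncomputable def cc (F : Finset (Pr n)) : ℕ := Nat.card (graphOf F).ConnectedComponent

/-- The two end points of `e` lie in one component of `([n], F)`. -/
def Lp (F : Finset (Pr n)) (e : Pr n) : Prop := (graphOf F).Reachable (ofLex e).1 (ofLex e).2

theorem graphOf_adj {F : Finset (Pr n)} {a b : Fin n} :
    (graphOf F).Adj a b ↔ a ≠ b ∧ (toLex (a, b) ∈ F ∨ toLex (b, a) ∈ F) := by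
  unfold graphOf
  rw [SimpleGraph.fromRel_adj]

theorem lp_of_mem {F : Finset (Pr n)} {e : Pr n} (he : e ∈ F) : Lp F e := by
  unfold Lp
  by_cases h : (ofLex e).1 = (ofLex e).2
  · rw [h]
  · apply SimpleGraph.Adj.reachable
    rw [graphOf_adj]
    exact ⟨h, Or.inl he⟩

theorem Lp.mono {F F' : Finset (Pr n)} (h : F ⊆ F') {e : Pr n} (he : Lp F e) : Lp F' e :=
  SimpleGraph.Reachable.mono (graphOf_mono h) he

theorem reach_insert {F : Finset (Pr n)} {e : Pr n} {a b : Fin n}
    (h : (graphOf (insert e F)).Reachable a b) :
    (graphOf F).Reachable a b ∨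
      ((graphOf F).Reachable a (ofLex e).1 ∧ (graphOf F).Reachable (ofLex e).2 b) ∨
      ((graphOf F).Reachable a (ofLex e).2 ∧ (graphOf F).Reachable (ofLex e).1 b) := by
  obtain ⟨w⟩ := h
  induction w with
  | nil => exact Or.inl (SimpleGraph.Reachable.refl _)
  | @cons a c b hac _ ih =>
    rw [graphOf_adj] at hac
    obtain ⟨hne, hac⟩ := hac
    have key : (graphOf F).Adj a c ∨ (a = (ofLex e).1 ∧ c = (ofLex e).2) ∨
        (a = (ofLex e).2 ∧ c = (ofLex e).1) := by
      rcases hac with h | h
      · rcases Finset.mem_insert.1 h with h | h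
        · right; left
          rw [← h]; exact ⟨rfl, rfl⟩
        · left; rw [graphOf_adj]; exact ⟨hne, Or.inl h⟩
      · rcases Finset.mem_insert.1 h with h | h
        · right; right
          rw [← h]; exact ⟨rfl, rfl⟩
        · left; rw [graphOf_adj]; exact ⟨hne, Or.inr h⟩
    rcases key with h | ⟨h1, h2⟩ | ⟨h1, h2⟩
    · have hr := h.reachable
      rcases ih with h3 | ⟨h3, h4⟩ | ⟨h3, h4⟩
      · exact Or.inl (hr.trans h3)
      · exact Or.inr (Or.inl ⟨hr.trans h3, h4⟩)
      · exact Or.inr (Or.inr ⟨hr.trans h3, h4⟩)
    · subst h1; subst h2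
      rcases ih with h3 | ⟨_, h4⟩ | ⟨_, h4⟩
      · exact Or.inr (Or.inl ⟨SimpleGraph.Reachable.refl _, h3⟩)
      · exact Or.inr (Or.inl ⟨SimpleGraph.Reachable.refl _, h4⟩)
      · exact Or.inl h4
    · subst h1; subst h2
      rcases ih with h3 | ⟨_, h4⟩ | ⟨_, h4⟩
      · exact Or.inr (Or.inr ⟨SimpleGraph.Reachable.refl _, h3⟩)
      · exact Or.inl h4
      · exact Or.inr (Or.inr ⟨SimpleGraph.Reachable.refl _, h4⟩)

theorem reach_insert_of_lp {F : Finset (Pr n)} {e : Pr n} (he : Lp F e) {a b : Fin n} :
    (graphOf (insert e F)).Reachable a b ↔ (graphOf F).Reachable a b := by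
  constructor
  · intro h
    rcases reach_insert h with h | ⟨h1, h2⟩ | ⟨h1, h2⟩
    · exact h
    · exact (h1.trans he).trans h2
    · exact (h1.trans he.symm).trans h2
  · exact fun h => h.mono (graphOf_mono (Finset.subset_insert _ _))

theorem cc_loop {F : Finset (Pr n)} {e : Pr n} (he : Lp F e) : cc (insert e F) = cc F := by
  unfold cc
  have h : (graphOf (insert e F)).Reachable = (graphOf F).Reachable := by
    funext a b
    exact propext (reach_insert_of_lp he)
  unfold SimpleGraph.ConnectedComponent
  rw [h]

theorem cc_insert {F : Finset (Pr n)} {e : Pr n} (he : ¬ Lp F e) : cc (insert e F) + 1 = cc F := by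
  classical
  have hle : graphOf F ≤ graphOf (insert e F) := graphOf_mono (Finset.subset_insert _ _)
  set x := (ofLex e).1 with hx
  set y := (ofLex e).2 with hy
  have hxy : (graphOf (insert e F)).Reachable x y := lp_of_mem (Finset.mem_insert_self e F)
  let g : (graphOf F).ConnectedComponent → (graphOf (insert e F)).ConnectedComponent :=
    fun c => c.map (SimpleGraph.Hom.ofLE hle)
  have hg : ∀ a, g ((graphOf F).connectedComponentMk a) =
      (graphOf (insert e F)).connectedComponentMk a := fun a => rfl
  have hbij : Function.Bijective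
      (fun c : {c : (graphOf F).ConnectedComponent // c ≠ (graphOf F).connectedComponentMk y} =>
        g c.1) := by
    constructor
    · rintro ⟨c, hc⟩ ⟨d, hd⟩ h
      induction c using SimpleGraph.ConnectedComponent.ind with
      | _ a =>
      induction d using SimpleGraph.ConnectedComponent.ind with
      | _ b =>
      simp only [hg] at h
      rw [SimpleGraph.ConnectedComponent.eq] at h
      have hc' : ¬ (graphOf F).Reachable a y := fun hh =>
        hc (SimpleGraph.ConnectedComponent.eq.2 hh)
      have hd' : ¬ (graphOf F).Reachable b y := fun hh =>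
        hd (SimpleGraph.ConnectedComponent.eq.2 hh)
      apply Subtype.ext
      apply SimpleGraph.ConnectedComponent.eq.2
      rcases reach_insert h with h | ⟨_, h2⟩ | ⟨h1, _⟩
      · exact h
      · exact absurd h2.symm hd'
      · exact absurd h1 hc'
    · intro d
      induction d using SimpleGraph.ConnectedComponent.ind with
      | _ b =>
      by_cases hb : (graphOf F).Reachable b y
      · refine ⟨⟨(graphOf F).connectedComponentMk x, fun hh => he ?_⟩, ?_⟩
        · exact SimpleGraph.ConnectedComponent.eq.1 hh
        · simp only [hg]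
          apply SimpleGraph.ConnectedComponent.eq.2
          exact hxy.trans (hb.mono hle).symm
      · refine ⟨⟨(graphOf F).connectedComponentMk b, fun hh => hb ?_⟩, hg b⟩
        exact SimpleGraph.ConnectedComponent.eq.1 hh
  have h1 := Nat.card_congr (Equiv.ofBijective _ hbij)
  unfold cc
  rw [← h1]
  have hfin : Finite (graphOf F).ConnectedComponent := inferInstance
  haveI := Fintype.ofFinite (graphOf F).ConnectedComponent
  rw [Nat.card_eq_fintype_card, Nat.card_eq_fintype_card, Fintype.card_subtype_compl,
    Fintype.card_subtype_eq]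
  have : 0 < Fintype.card (graphOf F).ConnectedComponent :=
    Fintype.card_pos_iff.2 ⟨(graphOf F).connectedComponentMk y⟩
  omega

theorem cc_connected {F : Finset (Pr n)} (h : (graphOf F).Connected) : cc F = 1 := by
  unfold cc
  rw [Nat.card_eq_one_iff_unique]
  haveI := h.nonempty
  exact ⟨⟨fun a b => by
    induction a using SimpleGraph.ConnectedComponent.ind with
    | _ a =>
    induction b using SimpleGraph.ConnectedComponent.ind with
    | _ b => exact SimpleGraph.ConnectedComponent.eq.2 (h.preconnected a b)⟩,
    ⟨(graphOf F).connectedComponentMk (Classical.arbitrary _)⟩⟩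

theorem cc_pos (v0 : Fin n) (F : Finset (Pr n)) : 0 < cc F := by
  unfold cc
  haveI : Nonempty (graphOf F).ConnectedComponent := ⟨(graphOf F).connectedComponentMk v0⟩
  exact Nat.card_pos

theorem cc_empty : cc (∅ : Finset (Pr n)) = n := by
  unfold cc
  have hbij : Function.Bijective
      (fun a : Fin n => (graphOf (∅ : Finset (Pr n))).connectedComponentMk a) := by
    constructor
    · intro a b h
      have h2 := SimpleGraph.ConnectedComponent.eq.1 h
      obtain ⟨w⟩ := h2
      cases w with
      | nil => rfl
      | cons hac _ =>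
        rw [graphOf_adj] at hac
        simp at hac
    · intro c
      induction c using SimpleGraph.ConnectedComponent.ind with
      | _ a => exact ⟨a, rfl⟩
  rw [← Nat.card_congr (Equiv.ofBijective _ hbij)]
  simp

/-- If `([n], F)` is not connected there is a pair of vertices in different components. -/
theorem exists_not_lp (v0 : Fin n) {F : Finset (Pr n)} (h : ¬ (graphOf F).Connected) :
    ∃ e : Pr n, ¬ Lp F e := by
  by_contra hcon
  push Not at hcon
  apply h
  haveI : Nonempty (Fin n) := ⟨v0⟩
  exact ⟨fun a b => hcon (toLex (a, b))⟩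

end Pool.Agent.R864.CSH
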