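import Pool.Agent.R864.CSH.Defs2

/-!
Complexes of subsets with values in an antitone family of subgroups; deletion and
contraction.
-/

namespace Pool.Agent.R864.CSH

open Finset

section signs
variable {ι : Type*} [LinearOrder ι]

theorem sg_sq (F : Finset ι) (e : ι) : sg F e * sg F e = 1 := by
  unfold sg
  rw [← pow_add]
  exact Even.neg_one_pow ⟨_, rfl⟩

theorem sg_insert {F : Finset ι} {e f : ι} (hf : f ∉ F) :
    sg (insert f F) e = if f < e then - sg F e else sg F e := by
  unfold sg
  rw [Finset.filter_insert]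
  split_ifs with h
  · rw [Finset.card_insert_of_notMem (by simp [hf]), pow_succ]
    ring
  · rfl

theorem sg_insert_self (F : Finset ι) (e : ι) : sg (insert e F) e = sg F e := by
  by_cases h : e ∈ F
  · rw [Finset.insert_eq_self.2 h]
  · rw [sg_insert h]; simp

theorem sg_swap {F : Finset ι} {e f : ι} (he : e ∉ F) (hf : f ∉ F) (hef : e ≠ f) :
    sg (insert e F) f * sg (insert f F) e = - (sg F e * sg F f) := by
  rw [sg_insert he, sg_insert hf]
  rcases lt_or_gt_of_ne hef with h | h
  · rw [if_pos h, if_neg (not_lt.2 h.le)]; ring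
  · rw [if_neg (not_lt.2 h.le), if_pos h]; ring

end signs

section cx
variable {ι : Type*} [LinearOrder ι] {X Y : Type*} [AddCommGroup X] [AddCommGroup Y]

/-- The differential over the edge set `E`. -/
def bd (E : Finset ι) (c : Finset ι → X) : Finset ι → X :=
  fun F => ∑ e ∈ E \ F, sg F e • c (insert e F)

/-- Chains of degree `k` on `(E, R)` with values in `A`. -/
def IsCh (A : Finset ι → AddSubgroup X) (E R : Finset ι) (k : ℤ) (c : Finset ι → X) : Prop :=
  (∀ F, ¬ (F ⊆ E ∧ (F.card : ℤ) = k) → c F = 0) ∧ ∀ F, c F ∈ A (F ∪ R)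

/-- Exactness in degree `k`. -/
def Ex (A : Finset ι → AddSubgroup X) (E R : Finset ι) (k : ℤ) : Prop :=
  ∀ c, IsCh A E R k c → bd E c = 0 → ∃ w, IsCh A E R (k + 1) w ∧ bd E w = c

/-- There is a non-torsion class in degree `k`. -/
def NT (A : Finset ι → AddSubgroup X) (E R : Finset ι) (k : ℤ) : Prop :=
  ∃ z, IsCh A E R k z ∧ bd E z = 0 ∧
    ∀ N : ℤ, N ≠ 0 → ¬ ∃ w, IsCh A E R (k + 1) w ∧ bd E w = N • z

def Off (e : ι) (c : Finset ι → X) : Prop := ∀ F, e ∈ F → c F = 0

def glue (e : ι) (z0 z1 : Finset ι → X) : Finset ι → X :=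
  fun F => if e ∈ F then sg (F.erase e) e • z1 (F.erase e) else z0 F

def part0 (e : ι) (c : Finset ι → X) : Finset ι → X := fun F => if e ∈ F then 0 else c F

def part1 (e : ι) (c : Finset ι → X) : Finset ι → X :=
  fun F => if e ∈ F then 0 else sg F e • c (insert e F)

theorem off_part0 (e : ι) (c : Finset ι → X) : Off e (part0 e c) := fun F h => if_pos h
theorem off_part1 (e : ι) (c : Finset ι → X) : Off e (part1 e c) := fun F h => if_pos h

theorem glue_parts (e : ι) (c : Finset ι → X) : glue e (part0 e c) (part1 e c) = c := by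
  funext F
  unfold glue part0 part1
  by_cases h : e ∈ F
  · simp only [h, if_true, Finset.notMem_erase, if_false]
    rw [smul_smul, sg_sq, one_smul, Finset.insert_erase h]
  · simp only [h, if_false]

theorem glue_inj {e : ι} {a b a' b' : Finset ι → X} (ha : Off e a) (hb : Off e b)
    (ha' : Off e a') (hb' : Off e b') (h : glue e a b = glue e a' b') : a = a' ∧ b = b' := by
  constructor
  · funext F
    by_cases hF : e ∈ F
    · rw [ha F hF, ha' F hF]
    · have := congrFun h F
      simpa [glue, hF] using this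
  · funext F
    by_cases hF : e ∈ F
    · rw [hb F hF, hb' F hF]
    · have := congrFun h (insert e F)
      simp only [glue, Finset.mem_insert_self, if_true, Finset.erase_insert hF] at this
      have h2 := congrArg (fun x => sg F e • x) this
      simpa [smul_smul, sg_sq] using h2

theorem off_bd {e : ι} {E : Finset ι} {c : Finset ι → X} (hc : Off e c) : Off e (bd E c) := by
  intro F hF
  unfold bd
  apply Finset.sum_eq_zero
  intro f _
  rw [hc _ (Finset.mem_insert_of_mem hF), smul_zero]

theorem Off.add {e : ι} {a b : Finset ι → X} (ha : Off e a) (hb : Off e b) : Off e (a + b) := by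
  intro F hF
  rw [Pi.add_apply, ha F hF, hb F hF, add_zero]

theorem Off.neg {e : ι} {a : Finset ι → X} (ha : Off e a) : Off e (-a) := by
  intro F hF
  rw [Pi.neg_apply, ha F hF, neg_zero]

theorem Off.zero {e : ι} : Off e (0 : Finset ι → X) := fun _ _ => rfl

theorem bd_add (E : Finset ι) (a b : Finset ι → X) : bd E (a + b) = bd E a + bd E b := by
  funext F
  simp only [bd, Pi.add_apply, smul_add, Finset.sum_add_distrib]

theorem bd_zero (E : Finset ι) : bd E (0 : Finset ι → X) = 0 := by
  funext F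
  simp [bd]

theorem bd_neg (E : Finset ι) (a : Finset ι → X) : bd E (-a) = - bd E a := by
  funext F
  simp only [bd, Pi.neg_apply, smul_neg, Finset.sum_neg_distrib]

theorem bd_sub (E : Finset ι) (a b : Finset ι → X) : bd E (a - b) = bd E a - bd E b := by
  rw [sub_eq_add_neg, bd_add, bd_neg, ← sub_eq_add_neg]

theorem bd_smul (E : Finset ι) (N : ℤ) (a : Finset ι → X) : bd E (N • a) = N • bd E a := by
  funext F
  simp only [bd, Pi.smul_apply, Finset.smul_sum]
  apply Finset.sum_congr rfl
  intro e _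
  rw [smul_comm]

theorem bd_map (E : Finset ι) (φ : X →+ Y) (a : Finset ι → X) :
    bd E (fun F => φ (a F)) = fun F => φ (bd E a F) := by
  funext F
  simp only [bd, map_sum, map_zsmul]

theorem bd_glue {e : ι} {E : Finset ι} (he : e ∉ E) (z0 z1 : Finset ι → X) :
    bd (insert e E) (glue e z0 z1) = glue e (bd E z0 + z1) (- bd E z1) := by
  funext F
  by_cases hF : e ∈ F
  · have hs : insert e E \ F = E \ F.erase e := by
      ext f
      simp only [Finset.mem_sdiff, Finset.mem_insert, Finset.mem_erase, not_and, ne_eq]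
      constructor
      · rintro ⟨rfl | h1, h2⟩
        · exact absurd hF h2
        · exact ⟨h1, fun _ => h2⟩
      · rintro ⟨h1, h2⟩
        have : f ≠ e := by rintro rfl; exact he h1
        exact ⟨Or.inr h1, h2 this⟩
    obtain ⟨F', hF', rfl⟩ : ∃ F', e ∉ F' ∧ F = insert e F' :=
      ⟨F.erase e, Finset.notMem_erase e F, (Finset.insert_erase hF).symm⟩
    rw [Finset.erase_insert hF'] at hs
    unfold bd
    rw [hs]
    simp only [glue, Finset.mem_insert_self, if_true, Finset.erase_insert hF', Pi.neg_apply,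
      smul_neg, Finset.smul_sum, ← Finset.sum_neg_distrib]
    apply Finset.sum_congr rfl
    intro f hf
    have hf1 : f ∉ F' := (Finset.mem_sdiff.1 hf).2
    have hfe : f ≠ e := by rintro rfl; exact he (Finset.mem_sdiff.1 hf).1
    have h1 : e ∈ insert f (insert e F') := by simp
    rw [if_pos h1]
    have h2 : (insert f (insert e F')).erase e = insert f F' := by
      rw [Finset.insert_comm, Finset.erase_insert]
      simp [hfe.symm, hF']
    rw [h2, smul_smul, smul_smul, sg_swap hF' hf1 hfe.symm, neg_smul]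
  · have hs : insert e E \ F = insert e (E \ F) := by
      ext f
      simp only [Finset.mem_sdiff, Finset.mem_insert]
      constructor
      · rintro ⟨rfl | h1, h2⟩
        · exact Or.inl rfl
        · exact Or.inr ⟨h1, h2⟩
      · rintro (rfl | ⟨h1, h2⟩)
        · exact ⟨Or.inl rfl, hF⟩
        · exact ⟨Or.inr h1, h2⟩
    unfold bd
    rw [hs, Finset.sum_insert (by simp [he])]
    simp only [glue, Finset.mem_insert_self, if_true, Finset.erase_insert hF, hF, if_false,
      Pi.add_apply]
    rw [smul_smul, sg_sq, one_smul, add_comm]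
    congr 1
    apply Finset.sum_congr rfl
    intro f hf
    have hfe : f ≠ e := by rintro rfl; exact he (Finset.mem_sdiff.1 hf).1
    have h1 : e ∉ insert f F := by simp [hfe.symm, hF]
    rw [if_neg h1]

theorem bd_bd (E : Finset ι) : ∀ c : Finset ι → X, (∀ F, ¬ F ⊆ E → c F = 0) →
    bd E (bd E c) = 0 := by
  induction E using Finset.induction_on with
  | empty =>
    intro c _
    funext F
    simp [bd]
  | insert e E he ih =>
    intro c hc
    have h0 : ∀ F, ¬ F ⊆ E → part0 e c F = 0 := by
      intro F hF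
      unfold part0
      split_ifs with h
      · rfl
      · apply hc
        intro h2
        apply hF
        intro x hx
        rcases Finset.mem_insert.1 (h2 hx) with rfl | h3
        · exact absurd hx h
        · exact h3
    have h1 : ∀ F, ¬ F ⊆ E → part1 e c F = 0 := by
      intro F hF
      unfold part1
      split_ifs with h
      · rfl
      · rw [hc, smul_zero]
        intro h2
        apply hF
        intro x hx
        rcases Finset.mem_insert.1 (h2 (Finset.mem_insert_of_mem hx)) with rfl | h3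
        · exact absurd hx h
        · exact h3
    rw [← glue_parts e c, bd_glue he, bd_glue he, bd_add, ih _ h0, bd_neg, ih _ h1]
    funext F
    simp [glue]

theorem IsCh.off {A : Finset ι → AddSubgroup X} {E R : Finset ι} {k : ℤ} {c : Finset ι → X}
    {e : ι} (he : e ∉ E) (h : IsCh A E R k c) : Off e c := by
  intro F hF
  apply h.1
  rintro ⟨h1, _⟩
  exact he (h1 hF)

theorem union_insert' {e : ι} {F R : Finset ι} (hF : e ∈ F) :
    F.erase e ∪ insert e R = F ∪ R := by
  ext x
  simp only [Finset.mem_union, Finset.mem_erase, Finset.mem_insert]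
  by_cases hx : x = e
  · subst hx; simp [hF]
  · simp [hx]

theorem IsCh.glue {A : Finset ι → AddSubgroup X} {E R : Finset ι} {k : ℤ}
    {z0 z1 : Finset ι → X} {e : ι}
    (h0 : IsCh A E R k z0) (h1 : IsCh A E (insert e R) (k - 1) z1) :
    IsCh A (insert e E) R k (glue e z0 z1) := by
  constructor
  · intro F hF
    unfold CSH.glue
    split_ifs with h
    · rw [h1.1, smul_zero]
      rintro ⟨h2, h3⟩
      apply hF
      refine ⟨?_, ?_⟩
      · intro x hx
        by_cases hxe : x = e
        · rw [hxe]; exact Finset.mem_insert_self _ _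
        · exact Finset.mem_insert_of_mem (h2 (Finset.mem_erase.2 ⟨hxe, hx⟩))
      · have := Finset.card_erase_add_one h
        omega
    · apply h0.1
      rintro ⟨h2, h3⟩
      exact hF ⟨h2.trans (Finset.subset_insert _ _), h3⟩
  · intro F
    unfold CSH.glue
    split_ifs with h
    · apply AddSubgroup.zsmul_mem
      have := h1.2 (F.erase e)
      rwa [union_insert' h] at this
    · exact h0.2 F

theorem IsCh.part0 {A : Finset ι → AddSubgroup X} {E R : Finset ι} {k : ℤ}
    {c : Finset ι → X} {e : ι} (h : IsCh A (insert e E) R k c) :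
    IsCh A E R k (part0 e c) := by
  constructor
  · intro F hF
    unfold CSH.part0
    split_ifs with h2
    · rfl
    · apply h.1
      rintro ⟨h3, h4⟩
      apply hF
      refine ⟨fun x hx => ?_, h4⟩
      rcases Finset.mem_insert.1 (h3 hx) with rfl | h5
      · exact absurd hx h2
      · exact h5
  · intro F
    unfold CSH.part0
    split_ifs with h2
    · exact AddSubgroup.zero_mem _
    · exact h.2 F

theorem IsCh.part1 {A : Finset ι → AddSubgroup X} {E R : Finset ι} {k : ℤ}
    {c : Finset ι → X} {e : ι} (h : IsCh A (insert e E) R k c) :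
    IsCh A E (insert e R) (k - 1) (part1 e c) := by
  constructor
  · intro F hF
    unfold CSH.part1
    split_ifs with h2
    · rfl
    · rw [h.1, smul_zero]
      rintro ⟨h3, h4⟩
      apply hF
      refine ⟨fun x hx => ?_, ?_⟩
      · rcases Finset.mem_insert.1 (h3 (Finset.mem_insert_of_mem hx)) with rfl | h5
        · exact absurd hx h2
        · exact h5
      · rw [Finset.card_insert_of_notMem h2] at h4
        push_cast at h4
        omega
  · intro F
    unfold CSH.part1
    split_ifs with h2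
    · exact AddSubgroup.zero_mem _
    · apply AddSubgroup.zsmul_mem
      have := h.2 (insert e F)
      rwa [Finset.insert_union, ← Finset.union_insert] at this

theorem IsCh.add {A : Finset ι → AddSubgroup X} {E R : Finset ι} {k : ℤ}
    {a b : Finset ι → X} (ha : IsCh A E R k a) (hb : IsCh A E R k b) : IsCh A E R k (a + b) :=
  ⟨fun F hF => by rw [Pi.add_apply, ha.1 F hF, hb.1 F hF, add_zero],
    fun F => AddSubgroup.add_mem _ (ha.2 F) (hb.2 F)⟩

theorem IsCh.neg {A : Finset ι → AddSubgroup X} {E R : Finset ι} {k : ℤ}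
    {a : Finset ι → X} (ha : IsCh A E R k a) : IsCh A E R k (-a) :=
  ⟨fun F hF => by rw [Pi.neg_apply, ha.1 F hF, neg_zero],
    fun F => AddSubgroup.neg_mem _ (ha.2 F)⟩

theorem IsCh.sub {A : Finset ι → AddSubgroup X} {E R : Finset ι} {k : ℤ}
    {a b : Finset ι → X} (ha : IsCh A E R k a) (hb : IsCh A E R k b) : IsCh A E R k (a - b) := by
  rw [sub_eq_add_neg]; exact ha.add hb.neg

theorem IsCh.smul {A : Finset ι → AddSubgroup X} {E R : Finset ι} {k : ℤ}
    {a : Finset ι → X} (ha : IsCh A E R k a) (N : ℤ) : IsCh A E R k (N • a) :=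
  ⟨fun F hF => by rw [Pi.smul_apply, ha.1 F hF, smul_zero],
    fun F => AddSubgroup.zsmul_mem _ (ha.2 F) N⟩

theorem IsCh.zero {A : Finset ι → AddSubgroup X} {E R : Finset ι} {k : ℤ} :
    IsCh A E R k (0 : Finset ι → X) :=
  ⟨fun _ _ => rfl, fun _ => AddSubgroup.zero_mem _⟩

/-- The differential lowers the degree by one (antitone family). -/
theorem IsCh.bd {A : Finset ι → AddSubgroup X} (hA : ∀ F F', F ⊆ F' → A F' ≤ A F)
    {E R : Finset ι} {k : ℤ}
    {a : Finset ι → X} (ha : IsCh A E R (k + 1) a) : IsCh A E R k (bd E a) := by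
  constructor
  · intro F hF
    unfold CSH.bd
    apply Finset.sum_eq_zero
    intro e he
    rw [ha.1, smul_zero]
    rintro ⟨h1, h2⟩
    apply hF
    have heF : e ∉ F := (Finset.mem_sdiff.1 he).2
    rw [Finset.card_insert_of_notMem heF] at h2
    push_cast at h2
    exact ⟨(Finset.subset_insert _ _).trans h1, by omega⟩
  · intro F
    unfold CSH.bd
    apply AddSubgroup.sum_mem
    intro e _
    apply AddSubgroup.zsmul_mem
    exact hA _ _ (Finset.union_subset_union_left (Finset.subset_insert e F)) (ha.2 (insert e F))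

theorem IsCh.mono {A : Finset ι → AddSubgroup X} (hA : ∀ F F', F ⊆ F' → A F' ≤ A F)
    {E R R' : Finset ι} (hR : R ⊆ R') {k : ℤ}
    {a : Finset ι → X} (ha : IsCh A E R' k a) : IsCh A E R k a :=
  ⟨ha.1, fun F => hA _ _ (Finset.union_subset_union_right hR) (ha.2 F)⟩

/-- Splitting a chain on `insert e E` and the cycle condition. -/
theorem cycle_parts {A : Finset ι → AddSubgroup X} {E R : Finset ι} {k : ℤ}
    {c : Finset ι → X} {e : ι} (he : e ∉ E) (h : IsCh A (insert e E) R k c)
    {d : Finset ι → X} {d0 d1 : Finset ι → X} (hd0 : Off e d0) (hd1 : Off e d1)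
    (hd : d = glue e d0 d1) (hc : bd (insert e E) c = d) :
    bd E (part0 e c) + part1 e c = d0 ∧ - bd E (part1 e c) = d1 := by
  have h0 := IsCh.part0 h
  have h1 := IsCh.part1 h
  rw [← glue_parts e c, bd_glue he, hd] at hc
  exact glue_inj ((off_bd (h0.off he)).add (h1.off he)) (off_bd (h1.off he)).neg hd0 hd1 hc

theorem glue_zero (e : ι) : glue e (0 : Finset ι → X) 0 = 0 := by
  funext F; simp [glue]

/-- Exactness from deletion and contraction. -/
theorem ex_insert {A : Finset ι → AddSubgroup X} (hA : ∀ F F', F ⊆ F' → A F' ≤ A F)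
    {E R : Finset ι} {k : ℤ} {e : ι} (he : e ∉ E) (h1 : Ex A E R k)
    (h2 : Ex A E (insert e R) (k - 1)) : Ex A (insert e E) R k := by
  intro c hc hcyc
  obtain ⟨e0, e1⟩ := cycle_parts he hc Off.zero Off.zero (glue_zero e).symm hcyc
  obtain ⟨w1, hw1, hw1'⟩ := h2 (part1 e c) (IsCh.part1 hc) (neg_eq_zero.1 e1)
  rw [sub_add_cancel] at hw1
  obtain ⟨w0, hw0, hw0'⟩ := h1 (part0 e c + w1)
    ((IsCh.part0 hc).add (hw1.mono hA (Finset.subset_insert _ _)))
    (by rw [bd_add, hw1', e0])
  refine ⟨glue e w0 (-w1), IsCh.glue hw0 (by rw [add_sub_cancel_right]; exact hw1.neg), ?_⟩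
  rw [bd_glue he, hw0', bd_neg, hw1', neg_neg, add_neg_cancel_right, glue_parts]

/-- Acyclicity when `e` does not change the values. -/
theorem ex_loop {A : Finset ι → AddSubgroup X}
    {E R : Finset ι} (k : ℤ) {e : ι} (he : e ∉ E)
    (h : ∀ F, F ⊆ E → A (F ∪ R) ≤ A (F ∪ insert e R)) : Ex A (insert e E) R k := by
  intro c hc hcyc
  obtain ⟨e0, e1⟩ := cycle_parts he hc Off.zero Off.zero (glue_zero e).symm hcyc
  have h0 := IsCh.part0 hc
  refine ⟨glue e 0 (part0 e c), IsCh.glue IsCh.zero ?_, ?_⟩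
  · rw [add_sub_cancel_right]
    refine ⟨h0.1, fun F => ?_⟩
    by_cases hF : F ⊆ E
    · exact h F hF (h0.2 F)
    · rw [h0.1 F (fun hh => hF hh.1)]; exact AddSubgroup.zero_mem _
  · rw [bd_glue he, bd_zero, zero_add]
    have : - bd E (part0 e c) = part1 e c := by
      rw [neg_eq_iff_eq_neg]
      exact eq_neg_of_add_eq_zero_left e0
    rw [this, glue_parts]

theorem nt_del {A : Finset ι → AddSubgroup X} (hA : ∀ F F', F ⊆ F' → A F' ≤ A F)
    {E R : Finset ι} {k : ℤ} {e : ι} (he : e ∉ E) (h1 : NT A E R k)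
    (h2 : Ex A E (insert e R) k) : NT A (insert e E) R k := by
  obtain ⟨z, hz, hzc, hzn⟩ := h1
  refine ⟨glue e z 0, IsCh.glue hz IsCh.zero, ?_, ?_⟩
  · rw [bd_glue he, hzc, bd_zero, add_zero, neg_zero, glue_zero]
  · rintro N hN ⟨w, hw, hw'⟩
    have hsm : N • glue e z 0 = glue e (N • z) 0 := by
      funext F
      simp only [Pi.smul_apply, glue]
      split_ifs <;> simp
    have hNz : Off e (N • z) := (hz.smul N).off he
    obtain ⟨e0, e1⟩ := cycle_parts he hw hNz Off.zero hsm hw'
    have hw1 := IsCh.part1 hw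
    rw [add_sub_cancel_right] at hw1
    obtain ⟨y, hy, hy'⟩ := h2 _ hw1 (neg_eq_zero.1 e1)
    apply hzn N hN
    refine ⟨part0 e w + y, (IsCh.part0 hw).add (hy.mono hA (Finset.subset_insert _ _)), ?_⟩
    rw [bd_add, hy', e0]

theorem nt_contr {A : Finset ι → AddSubgroup X} (hA : ∀ F F', F ⊆ F' → A F' ≤ A F)
    {E R : Finset ι} {k : ℤ} {e : ι} (he : e ∉ E) (h1 : NT A E (insert e R) (k - 1))
    (h2 : Ex A E R (k - 1)) : NT A (insert e E) R k := by
  obtain ⟨z, hz, hzc, hzn⟩ := h1
  obtain ⟨z0, hz0, hz0'⟩ := h2 (-z) ((hz.mono hA (Finset.subset_insert _ _)).neg)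
    (by rw [bd_neg, hzc, neg_zero])
  rw [sub_add_cancel] at hz0
  refine ⟨glue e z0 z, IsCh.glue hz0 hz, ?_, ?_⟩
  · rw [bd_glue he, hz0', hzc, neg_add_cancel, neg_zero, glue_zero]
  · rintro N hN ⟨w, hw, hw'⟩
    have hsm : N • glue e z0 z = glue e (N • z0) (N • z) := by
      funext F
      simp only [Pi.smul_apply, glue]
      split_ifs
      · rw [smul_comm]
      · rfl
    have hNz : Off e (N • z) := (hz.smul N).off he
    have hNz0 : Off e (N • z0) := (hz0.smul N).off he
    obtain ⟨e0, e1⟩ := cycle_parts he hw hNz0 hNz hsm hw'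
    have hw1 := IsCh.part1 hw
    rw [add_sub_cancel_right] at hw1
    apply hzn N hN
    refine ⟨- part1 e w, ?_, ?_⟩
    · rw [sub_add_cancel]; exact hw1.neg
    · rw [bd_neg, e1]

/-- Data for a coloop `e`: contraction and exterior multiplication. -/
structure Coloop (A B : Finset ι → AddSubgroup X) (E R : Finset ι) (e : ι)
    (i m : X →+ X) : Prop where
  i_mem : ∀ F, F ⊆ E → ∀ f ∈ A (F ∪ R), i f ∈ B (F ∪ insert e R)
  m_mem : ∀ F, F ⊆ E → ∀ f ∈ B (F ∪ insert e R), m f ∈ A (F ∪ R)
  i_m : ∀ F, F ⊆ E → ∀ f ∈ B (F ∪ insert e R), i (m f) = f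
  ker_i : ∀ F, F ⊆ E → ∀ f ∈ A (F ∪ R), i f = 0 → f ∈ A (F ∪ insert e R)
  i_zero : ∀ F, F ⊆ E → ∀ f ∈ A (F ∪ insert e R), i f = 0

theorem isCh_map {A B : Finset ι → AddSubgroup X} {E R R' : Finset ι} {k : ℤ} (i : X →+ X)
    (h : ∀ F, F ⊆ E → ∀ f ∈ A (F ∪ R), i f ∈ B (F ∪ R')) {c : Finset ι → X}
    (hc : IsCh A E R k c) : IsCh B E R' k (fun F => i (c F)) := by
  constructor
  · intro F hF
    simp only [hc.1 F hF, map_zero]
  · intro F
    by_cases hF : F ⊆ E
    · exact h F hF _ (hc.2 F)
    · simp only [hc.1 F (fun hh => hF hh.1), map_zero]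
      exact AddSubgroup.zero_mem _

theorem ex_coloop {A B : Finset ι → AddSubgroup X} (hA : ∀ F F', F ⊆ F' → A F' ≤ A F)
    {E R : Finset ι} {k : ℤ} {e : ι} (he : e ∉ E) {i m : X →+ X}
    (C : Coloop A B E R e i m) (h : Ex B E (insert e R) k) : Ex A (insert e E) R k := by
  intro c hc hcyc
  obtain ⟨e0, e1⟩ := cycle_parts he hc Off.zero Off.zero (glue_zero e).symm hcyc
  have h0 := IsCh.part0 hc
  have h1 := IsCh.part1 hc
  have hi0 : IsCh B E (insert e R) k (fun F => i (part0 e c F)) := isCh_map i C.i_mem h0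
  have hb0 : bd E (part0 e c) = - part1 e c := eq_neg_of_add_eq_zero_left e0
  have hbi : bd E (fun F => i (part0 e c F)) = 0 := by
    rw [bd_map, hb0]
    funext F
    simp only [Pi.neg_apply, map_neg, Pi.zero_apply, neg_eq_zero]
    by_cases hF : F ⊆ E
    · exact C.i_zero F hF _ (h1.2 F)
    · rw [h1.1 F (fun hh => hF hh.1), map_zero]
  obtain ⟨w', hw', hbw'⟩ := h _ hi0 hbi
  have hw0 : IsCh A E R (k + 1) (fun F => m (w' F)) := isCh_map m C.m_mem hw'
  set w0 : Finset ι → X := fun F => m (w' F) with hw0d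
  have hy : IsCh A E R k (part0 e c - bd E w0) := h0.sub (hw0.bd hA)
  have him : (fun F => i (w0 F)) = w' := by
    funext F
    by_cases hF : F ⊆ E
    · exact C.i_m F hF _ (hw'.2 F)
    · simp only [hw0d]
      rw [hw'.1 F (fun hh => hF hh.1), map_zero, map_zero]
  have hiy : ∀ F, i ((part0 e c - bd E w0) F) = 0 := by
    intro F
    have h3 := congrFun (bd_map E i w0) F
    rw [him, hbw'] at h3
    simp only [Pi.sub_apply, map_sub]
    rw [← h3, sub_self]
  have hy' : IsCh A E (insert e R) (k + 1 - 1) (part0 e c - bd E w0) := by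
    rw [add_sub_cancel_right]
    refine ⟨hy.1, fun F => ?_⟩
    by_cases hF : F ⊆ E
    · exact C.ker_i F hF _ (hy.2 F) (hiy F)
    · rw [hy.1 F (fun hh => hF hh.1)]; exact AddSubgroup.zero_mem _
  refine ⟨glue e w0 (part0 e c - bd E w0), IsCh.glue hw0 hy', ?_⟩
  rw [bd_glue he, add_sub_cancel, bd_sub, hb0,
    bd_bd E w0 (fun F hF => hw0.1 F (fun hh => hF hh.1)), sub_zero, neg_neg, glue_parts]

theorem nt_coloop {A B : Finset ι → AddSubgroup X}
    {E R : Finset ι} {k : ℤ} {e : ι} (he : e ∉ E) {i m : X →+ X}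
    (C : Coloop A B E R e i m) (h : NT B E (insert e R) k) : NT A (insert e E) R k := by
  obtain ⟨z, hz, hzc, hzn⟩ := h
  have hz0 : IsCh A E R k (fun F => m (z F)) := isCh_map m C.m_mem hz
  refine ⟨glue e (fun F => m (z F)) 0, IsCh.glue hz0 IsCh.zero, ?_, ?_⟩
  · rw [bd_glue he, bd_map, hzc, bd_zero, add_zero, neg_zero]
    funext F
    simp [glue]
  · rintro N hN ⟨w, hw, hw'⟩
    have hsm : N • glue e (fun F => m (z F)) 0 = glue e (N • (fun F => m (z F))) 0 := by
      funext F
      simp only [Pi.smul_apply, glue]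
      split_ifs <;> simp
    have hNz : Off e (N • (fun F => m (z F))) := (hz0.smul N).off he
    obtain ⟨e0, e1⟩ := cycle_parts he hw hNz Off.zero hsm hw'
    have hw0 := IsCh.part0 hw
    have hw1 := IsCh.part1 hw
    apply hzn N hN
    refine ⟨fun F => i (part0 e w F), isCh_map i C.i_mem hw0, ?_⟩
    rw [bd_map]
    funext F
    have h3 := congrFun e0 F
    simp only [Pi.add_apply, Pi.smul_apply] at h3
    have h4 : bd E (part0 e w) F = N • m (z F) - part1 e w F := eq_sub_of_add_eq h3
    rw [h4, map_sub, map_zsmul]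
    by_cases hF : F ⊆ E
    · rw [C.i_zero F hF _ (hw1.2 F), sub_zero, C.i_m F hF _ (hz.2 F)]
      rfl
    · rw [hw1.1 F (fun hh => hF hh.1), map_zero, sub_zero, Pi.smul_apply,
        hz.1 F (fun hh => hF hh.1), map_zero, map_zero]

end cx

end Pool.Agent.R864.CSH
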