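import Mathlib

/-!
Definitions for MP_5bcb58_co (homological span of the degree-zero chromatic symmetric
homology).
-/

namespace Pool.Agent.R864.CSH

open Finset

/-- Ordered pairs of vertices with the lexicographic order. -/
abbrev Pr (n : ℕ) := Fin n ×ₗ Fin n

variable {n : ℕ}

/-- The edges of `G`, written as pairs `(i, j)` with `i < j`, ordered lexicographically. -/
noncomputable def edges (G : SimpleGraph (Fin n)) : Finset (Pr n) := by
  classical
  exact univ.filter (fun p => (ofLex p).1 < (ofLex p).2 ∧ G.Adj (ofLex p).1 (ofLex p).2)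

/-- The spanning subgraph `([n], F)`. -/
def graphOf (F : Finset (Pr n)) : SimpleGraph (Fin n) :=
  SimpleGraph.fromRel (fun i j => toLex (i, j) ∈ F)

/-- The Young subgroup of `β(F)`: the permutations that map every vertex into its own
connected component of `([n], F)`. -/
def stab (F : Finset (Pr n)) : Subgroup (Equiv.Perm (Fin n)) where
  carrier := {σ | ∀ v, (graphOf F).Reachable v (σ v)}
  mul_mem' := by
    intro a b ha hb v
    exact (hb v).trans (ha (b v))
  one_mem' := by
    intro v
    exact SimpleGraph.Reachable.refl v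
  inv_mem' := by
    intro a ha v
    have := ha (a⁻¹ v)
    simpa using this.symm

theorem graphOf_mono {F F' : Finset (Pr n)} (h : F' ⊆ F) : graphOf F' ≤ graphOf F := by
  intro a b hab
  unfold graphOf at *
  rw [SimpleGraph.fromRel_adj] at *
  exact ⟨hab.1, hab.2.imp (fun x => h x) (fun x => h x)⟩

theorem stab_mono {F F' : Finset (Pr n)} (h : F' ⊆ F) : stab F' ≤ stab F := by
  intro σ hσ v
  exact (hσ v).mono (graphOf_mono h)

/-- The permutation module `M_F` with basis `S_n / S_β(F)`, as the group of integer
functions on that finite set. -/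
abbrev Mod (F : Finset (Pr n)) := (Equiv.Perm (Fin n) ⧸ stab F) → ℤ

/-- The transfer map `M_F → M_{F'}` for `F' ⊆ F`: pull-back of functions along
`S_n / S_β(F') → S_n / S_β(F)`. It sends the basis element `g S_β(F)` to the sum of the
basis elements `g h S_β(F')`, `h ∈ S_β(F) / S_β(F')`, and is the identity when
`β(F') = β(F)`. -/
def transfer {F F' : Finset (Pr n)} (h : F' ⊆ F) (φ : Mod F) : Mod F' :=
  fun x => φ (Subgroup.quotientMapOfLE (stab_mono h) x)

/-- The sign `(-1)^#{f ∈ F : f < e}`. -/
def sg {ι : Type*} [LinearOrder ι] (F : Finset ι) (e : ι) : ℤ :=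
  (-1) ^ (F.filter (fun f => f < e)).card

/-- `c` is a chain of degree `k` of the complex of `G`: a family of elements of `M_F` that
vanishes unless `F` is a set of `k` edges of `G`. -/
def IsChain (G : SimpleGraph (Fin n)) (k : ℕ) (c : (F : Finset (Pr n)) → Mod F) : Prop :=
  ∀ F, ¬ (F ⊆ edges G ∧ F.card = k) → c F = 0

/-- The differential: the component of `d c` at `F'` is the sum over the edges `e` of `G`
outside `F'` of `± d_{F, F'} (c F)`, `F = F' ∪ {e}`, with sign `(-1)^#{f ∈ F : f < e}`. -/
noncomputable def dif (G : SimpleGraph (Fin n)) (c : (F : Finset (Pr n)) → Mod F) :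
    (F : Finset (Pr n)) → Mod F :=
  fun F' => ∑ e ∈ edges G \ F', sg (insert e F') e • transfer (subset_insert e F') (c (insert e F'))

/-- `H_k(G; ℤ) ≠ 0`: some cycle of degree `k` is not a boundary. -/
def HNonzero (G : SimpleGraph (Fin n)) (k : ℕ) : Prop :=
  ∃ c, IsChain G k c ∧ dif G c = 0 ∧ ¬ ∃ w, IsChain G (k + 1) w ∧ dif G w = c

/-- `IsSpan G s`: the homological span of `G` is `s`, i.e. `s = k + 1` for the largest `k`
with `H_k(G; ℤ) ≠ 0`. -/
def IsSpan (G : SimpleGraph (Fin n)) (s : ℕ) : Prop :=
  ∃ k, IsGreatest {k | HNonzero G k} k ∧ s = k + 1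

/-- `v` is a cut vertex of the subgraph `H`: its deletion increases the number of connected
components. -/
def IsCutVertex {G : SimpleGraph (Fin n)} (H : G.Subgraph) (v : Fin n) : Prop :=
  v ∈ H.verts ∧
    Nat.card H.coe.ConnectedComponent < Nat.card (H.deleteVerts {v}).coe.ConnectedComponent

/-- A block: a maximal connected subgraph with no cut vertex. -/
def IsBlock {G : SimpleGraph (Fin n)} (H : G.Subgraph) : Prop :=
  Maximal (fun K : G.Subgraph => K.Connected ∧ ∀ v, ¬ IsCutVertex K v) H

/-- The number of blocks. -/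
noncomputable def numBlocks (G : SimpleGraph (Fin n)) : ℕ :=
  Nat.card {H : G.Subgraph // IsBlock H}

end Pool.Agent.R864.CSH
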