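import Pool.Agent.R864.CSH.Defs

/-!
Auxiliary definitions for MP_5bcb58_co.
-/

namespace Pool.Agent.R864.CSH

open Finset

variable {n : ℕ}

/-- Integer functions on lists of vertices. -/
abbrev LF (n : ℕ) := List (Fin n) → ℤ

/-- Alternating: swapping two neighbouring entries changes the sign. -/
def Alt (f : LF n) : Prop :=
  ∀ (p : List (Fin n)) (a b : Fin n) (r : List (Fin n)), f (p ++ a :: b :: r) = - f (p ++ b :: a :: r)

/-- Alternating functions of degree `j`, constant on the components of `([n], F)` in the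
first (hence every) variable. -/
def Au (j : ℕ) (F : Finset (Pr n)) : AddSubgroup (LF n) where
  carrier := {f | Alt f ∧ (∀ l, l.length ≠ j → f l = 0) ∧
    ∀ e ∈ F, ∀ l, f ((ofLex e).1 :: l) = f ((ofLex e).2 :: l)}
  add_mem' := by
    rintro a b ⟨ha, ha', ha''⟩ ⟨hb, hb', hb''⟩
    refine ⟨fun p x y r => ?_, fun l hl => ?_, fun e he l => ?_⟩
    · simp only [Pi.add_apply]; rw [ha, hb]; ring
    · simp only [Pi.add_apply]; rw [ha' l hl, hb' l hl]; ring
    · simp only [Pi.add_apply]; rw [ha'' e he, hb'' e he]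
  zero_mem' := by
    refine ⟨fun p x y r => ?_, fun l hl => ?_, fun e he l => ?_⟩ <;> simp
  neg_mem' := by
    rintro a ⟨ha, ha', ha''⟩
    refine ⟨fun p x y r => ?_, fun l hl => ?_, fun e he l => ?_⟩
    · simp only [Pi.neg_apply]; rw [ha]
    · simp only [Pi.neg_apply]; rw [ha' l hl]; ring
    · simp only [Pi.neg_apply]; rw [ha'' e he]

/-- The functions in `Au j F` that vanish when the first (hence any) variable is `v0`. -/
def Af (v0 : Fin n) (j : ℕ) (F : Finset (Pr n)) : AddSubgroup (LF n) where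
  carrier := {f | f ∈ Au j F ∧ ∀ l, f (v0 :: l) = 0}
  add_mem' := by
    rintro a b ⟨ha, ha'⟩ ⟨hb, hb'⟩
    refine ⟨(Au j F).add_mem ha hb, fun l => ?_⟩
    simp only [Pi.add_apply]; rw [ha', hb']; ring
  zero_mem' := ⟨(Au j F).zero_mem, fun l => rfl⟩
  neg_mem' := by
    rintro a ⟨ha, ha'⟩
    refine ⟨(Au j F).neg_mem ha, fun l => ?_⟩
    simp only [Pi.neg_apply]; rw [ha']; ring

/-- The functions on `S_n` that are right invariant under the Young subgroup of `β(F)`. -/
def Inv (F : Finset (Pr n)) : AddSubgroup (Equiv.Perm (Fin n) → ℤ) where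
  carrier := {φ | ∀ g, ∀ s ∈ stab F, φ (g * s) = φ g}
  add_mem' := by
    intro a b ha hb g s hs
    simp only [Pi.add_apply]; rw [ha g s hs, hb g s hs]
  zero_mem' := fun g s hs => rfl
  neg_mem' := by
    intro a ha g s hs
    simp only [Pi.neg_apply]; rw [ha g s hs]

/-- Contraction with the edge functional `e = (x, y)`: `f ↦ f(y, ·) - f(x, ·)`. -/
def iota (e : Pr n) (f : LF n) : LF n :=
  fun l => f ((ofLex e).2 :: l) - f ((ofLex e).1 :: l)

/-- Exterior multiplication by the function `u` (recursive on the list). -/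
def muAux (u : Fin n → ℤ) : List (Fin n) → LF n → ℤ
  | [], _ => 0
  | v :: l, f => u v * f l - muAux u l (fun t => f (v :: t))

/-- Exterior multiplication by the function `u`. -/
def mu (u : Fin n → ℤ) (f : LF n) : LF n := fun l => muAux u l f

/-- A rooted spanning tree of `G`, given by parents and depths. -/
structure NTree (G : SimpleGraph (Fin n)) (r : Fin n) where
  par : Fin n → Fin n
  dep : Fin n → ℕ
  par_root : par r = r
  dep_root : dep r = 0
  adj : ∀ v, v ≠ r → G.Adj (par v) v
  dep_par : ∀ v, v ≠ r → dep v = dep (par v) + 1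

/-- `a` is an ancestor of `v` (possibly `a = v`). -/
def NTree.anc {G : SimpleGraph (Fin n)} {r : Fin n} (T : NTree G r) (a v : Fin n) : Prop :=
  ∃ i : ℕ, T.par^[i] v = a

/-- Active vertices: all edges of `G` leaving the subtree of `v` go to the parent of `v`. -/
def NTree.act {G : SimpleGraph (Fin n)} {r : Fin n} (T : NTree G r) (v : Fin n) : Prop :=
  v ≠ r ∧ ∀ x y, G.Adj x y → T.anc v x → ¬ T.anc v y → y = T.par v

end Pool.Agent.R864.CSH
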