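import Pool.Agent.R864.CSH.Tree
import Pool.Agent.R711.CSH.D
import Pool.Agent.R711.CSH.E
import Pool.Agent.R379.CSH.CSHF
import Pool.Agent.R715.CSHB

/-!
From functions on `S_n` to the modules `M_F`; lower and upper bounds.
-/

namespace Pool.Agent.R864.CSH

open Finset

variable {n : ℕ}

theorem inv_mono {F F' : Finset (Pr n)} (h : F ⊆ F') : Inv F' ≤ Inv F :=
  fun _ hφ g s hs => hφ g s (stab_mono h hs)

/-- Pull-back of an element of `M_F` to `S_n`. -/
def pb (F : Finset (Pr n)) (φ : Mod F) : Equiv.Perm (Fin n) → ℤ := fun g => φ (QuotientGroup.mk g)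

theorem pb_mem (F : Finset (Pr n)) (φ : Mod F) : pb F φ ∈ Inv F := by
  intro g s hs
  unfold pb
  congr 1
  rw [QuotientGroup.eq]
  have : (g * s)⁻¹ * g = s⁻¹ := by group
  rw [this]
  exact (stab F).inv_mem hs

theorem pb_inj (F : Finset (Pr n)) {φ ψ : Mod F} (h : pb F φ = pb F ψ) : φ = ψ := by
  funext x
  induction x using QuotientGroup.induction_on with
  | H g => exact congrFun h g

theorem pb_surj (F : Finset (Pr n)) {f : Equiv.Perm (Fin n) → ℤ} (hf : f ∈ Inv F) :
    ∃ φ : Mod F, pb F φ = f := by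
  refine ⟨fun x => Quotient.liftOn' x f ?_, ?_⟩
  · intro a b hab
    rw [QuotientGroup.leftRel_apply] at hab
    have := hf a _ hab
    rw [← this]
    congr 1
    group
  · funext g
    rfl

theorem pb_zero (F : Finset (Pr n)) : pb F 0 = 0 := rfl

theorem pb_transfer {F F' : Finset (Pr n)} (h : F' ⊆ F) (φ : Mod F) :
    pb F' (transfer h φ) = pb F φ := rfl

/-- Chains as families of functions on `S_n`. -/
def pbc (c : (F : Finset (Pr n)) → Mod F) : Finset (Pr n) → (Equiv.Perm (Fin n) → ℤ) :=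
  fun F => pb F (c F)

theorem pbc_isCh {G : SimpleGraph (Fin n)} {k : ℕ} {c : (F : Finset (Pr n)) → Mod F} :
    IsChain G k c ↔ IsCh Inv (edges G) ∅ (k : ℤ) (pbc c) := by
  constructor
  · intro h
    refine ⟨fun F hF => ?_, fun F => ?_⟩
    · unfold pbc
      rw [h F (fun hh => hF ⟨hh.1, by exact_mod_cast hh.2⟩)]
      rfl
    · rw [Finset.union_empty]
      exact pb_mem F _
  · intro h F hF
    apply pb_inj F
    rw [pb_zero]
    exact h.1 F (fun hh => hF ⟨hh.1, by exact_mod_cast hh.2⟩)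

theorem pbc_dif {G : SimpleGraph (Fin n)} (c : (F : Finset (Pr n)) → Mod F) :
    pbc (dif G c) = bd (edges G) (pbc c) := by
  funext F g
  unfold pbc bd dif pb
  simp only [Finset.sum_apply, Pi.smul_apply]
  apply Finset.sum_congr rfl
  intro e _
  rw [sg_insert_self]
  rfl

theorem pbc_surj {E : Finset (Pr n)} {k : ℤ} {f : Finset (Pr n) → (Equiv.Perm (Fin n) → ℤ)}
    (hf : IsCh Inv E ∅ k f) : ∃ c : (F : Finset (Pr n)) → Mod F, pbc c = f := by
  have h : ∀ F, ∃ φ : Mod F, pb F φ = f F := fun F => by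
    have := hf.2 F
    rw [Finset.union_empty] at this
    exact pb_surj F this
  choose c hc using h
  exact ⟨c, funext hc⟩

theorem pbc_inj {c d : (F : Finset (Pr n)) → Mod F} (h : pbc c = pbc d) : c = d := by
  funext F
  exact pb_inj F (congrFun h F)

theorem hnonzero_iff {G : SimpleGraph (Fin n)} {k : ℕ} :
    HNonzero G k ↔ ¬ Ex Inv (edges G) ∅ (k : ℤ) := by
  constructor
  · rintro ⟨c, hc, hc0, hcn⟩ hex
    apply hcn
    obtain ⟨w, hw, hw'⟩ := hex (pbc c) (pbc_isCh.1 hc) (by rw [← pbc_dif, hc0]; rfl)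
    obtain ⟨w0, rfl⟩ := pbc_surj hw
    refine ⟨w0, pbc_isCh.2 (by push_cast; exact hw), ?_⟩
    apply pbc_inj
    rw [pbc_dif, hw']
  · intro h
    unfold Ex at h
    push Not at h
    obtain ⟨c, hc, hc0, hcn⟩ := h
    obtain ⟨c0, rfl⟩ := pbc_surj hc
    refine ⟨c0, pbc_isCh.2 hc, ?_, ?_⟩
    · apply pbc_inj
      rw [pbc_dif, hc0]
      rfl
    · rintro ⟨w, hw, hw'⟩
      apply hcn (pbc w)
      · have := pbc_isCh.1 hw
        push_cast at this
        exact this
      · rw [← pbc_dif, hw']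

/-- Lower bound from a non-torsion class. -/
theorem hnonzero_of_nt (r : Fin n) {j : ℕ} {G : SimpleGraph (Fin n)} {k : ℕ} (hj : j ≤ n)
    (h : NT (Af r j) (edges G) ∅ (k : ℤ)) : HNonzero G k := by
  rw [hnonzero_iff]
  intro hex
  obtain ⟨Φ, Ψ, M, hM, hΦ, hΨ, hΨΦ⟩ := R379.CSH.stF n j hj
  obtain ⟨z, hz, hzc, hzn⟩ := h
  obtain ⟨_, _, _, hadd, _, _, hnorm⟩ := R715.CSHB.thmB n r
  have hzI : IsCh Inv (edges G) ∅ (k : ℤ) (fun F => Φ (z F)) := by
    refine ⟨fun F hF => ?_, fun F => hΦ _ _ (hz.2 F).1⟩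
    simp only [hz.1 F hF, map_zero]
  obtain ⟨w, hw, hw'⟩ := hex _ hzI (by
    rw [bd_map, hzc]
    funext F
    simp only [Pi.zero_apply, map_zero])
  -- normalisation
  have hmu0 : mu (fun _ => (1 : ℤ)) (0 : LF n) = 0 := by
    have := hadd (fun _ => 1) 0 0
    rw [add_zero] at this
    exact left_eq_add.1 this
  let N : LF n →+ LF n := AddMonoidHom.mk' (fun f => f - mu (fun _ => 1) (fun l => f (r :: l))) (by
    intro f g
    have h1 := hadd (fun _ => 1) (fun l => f (r :: l)) (fun l => g (r :: l))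
    have h2 : (fun l => (f + g) (r :: l)) =
      (fun l => f (r :: l)) + (fun l => g (r :: l)) := rfl
    rw [h2, h1]
    abel)
  have hN : ∀ f ∈ Af r j (∅ : Finset (Pr n)), N f = f := by
    intro f hf
    change f - mu (fun _ => 1) (fun l => f (r :: l)) = f
    have : (fun l => f (r :: l)) = (0 : LF n) := by funext l; exact hf.2 l
    rw [this, hmu0, sub_zero]
  apply hzn M hM
  refine ⟨fun F => N (Ψ (w F)), ⟨fun F hF => ?_, fun F => hnorm j _ _ (hΨ _ _ (hw.2 F))⟩, ?_⟩
  · simp only [hw.1 F hF, map_zero]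
  · have h1 : (fun F => N (Ψ (w F))) = fun F => (N.comp Ψ) (w F) := rfl
    rw [h1, bd_map, hw']
    funext F
    simp only [AddMonoidHom.comp_apply, Pi.smul_apply]
    rw [hΨΦ _ _ (hz.2 F).1, map_zsmul, hN]
    exact af_mono r j (Finset.empty_subset _) (hz.2 F)

/-- `Inv` functions vanishing at the identity. -/
def Inv0 (F : Finset (Pr n)) : AddSubgroup (Equiv.Perm (Fin n) → ℤ) where
  carrier := {φ | φ ∈ Inv F ∧ φ 1 = 0}
  add_mem' := by
    rintro a b ⟨ha, ha'⟩ ⟨hb, hb'⟩
    exact ⟨(Inv F).add_mem ha hb, by simp [ha', hb']⟩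
  zero_mem' := ⟨(Inv F).zero_mem, rfl⟩
  neg_mem' := by
    rintro a ⟨ha, ha'⟩
    exact ⟨(Inv F).neg_mem ha, by simp [ha']⟩

/-- Constant functions. -/
def Cst (_ : Finset (Pr n)) : AddSubgroup (Equiv.Perm (Fin n) → ℤ) where
  carrier := {φ | ∀ g h, φ g = φ h}
  add_mem' := by
    intro a b ha hb g h
    simp only [Pi.add_apply]; rw [ha g h, hb g h]
  zero_mem' := fun _ _ => rfl
  neg_mem' := by
    intro a ha g h
    simp only [Pi.neg_apply]; rw [ha g h]

theorem stab_insert_of_lp {F : Finset (Pr n)} {e : Pr n} (h : Lp F e) :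
    stab (insert e F) = stab F := by
  apply le_antisymm
  · intro σ hσ v
    exact (reach_insert_of_lp h).1 (hσ v)
  · exact stab_mono (Finset.subset_insert _ _)

theorem ex_inv0 (v0 : Fin n) (E : Finset (Pr n)) (k : ℤ) (hk : (n : ℤ) - 2 < k) :
    Ex (Inv0 : Finset (Pr n) → _) E ∅ k := by
  apply uv (fun F F' h => ?_) 1 (fun F e h => ?_) (fun R hR => ?_) E ∅ k (by rw [cc_empty]; omega)
  · rintro φ ⟨h1, h2⟩
    exact ⟨inv_mono h h1, h2⟩
  · rintro φ ⟨h1, h2⟩
    refine ⟨?_, h2⟩
    intro g s hs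
    rw [stab_insert_of_lp h] at hs
    exact h1 g s hs
  · rintro f ⟨h1, h2⟩
    have hc : (graphOf R).Connected := by
      by_contra hcon
      obtain ⟨e, he⟩ := exists_not_lp v0 hcon
      have h3 := cc_insert he
      have h4 := cc_pos v0 (insert e R)
      omega
    funext g
    have h3 := h1 1 g (fun v => hc.preconnected v (g v))
    rw [one_mul] at h3
    rw [h3, h2]
    rfl

theorem ex_cst {E : Finset (Pr n)} (hE : E.Nonempty) (k : ℤ) :
    Ex (Cst : Finset (Pr n) → _) E ∅ k := by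
  obtain ⟨e, he⟩ := hE
  rw [← Finset.insert_erase he]
  exact ex_loop k (Finset.notMem_erase e E) (fun F _ => le_rfl)

/-- Vanishing of the homology in degrees at least `n - 1`. -/
theorem ex_inv (hn : 2 ≤ n) (E : Finset (Pr n)) (k : ℤ) (hk : (n : ℤ) - 2 < k) :
    Ex (Inv : Finset (Pr n) → _) E ∅ k := by
  by_cases hE : E.Nonempty
  · intro c hc hcyc
    let v0 : Fin n := ⟨0, by omega⟩
    let p : (Equiv.Perm (Fin n) → ℤ) →+ (Equiv.Perm (Fin n) → ℤ) :=
      AddMonoidHom.mk' (fun φ => fun g => φ g - φ 1) (by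
        intro a b; funext g; simp only [Pi.add_apply]; ring)
    let q : (Equiv.Perm (Fin n) → ℤ) →+ (Equiv.Perm (Fin n) → ℤ) :=
      AddMonoidHom.mk' (fun φ => fun _ => φ 1) (by
        intro a b; funext g; simp only [Pi.add_apply])
    have hp : IsCh Inv0 E ∅ k (fun F => p (c F)) := by
      refine ⟨fun F hF => by simp only [hc.1 F hF, map_zero], fun F => ⟨?_, ?_⟩⟩
      · intro g s hs
        change c F (g * s) - c F 1 = c F g - c F 1
        rw [hc.2 F g s hs]
      · change c F 1 - c F 1 = 0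
        ring
    have hq : IsCh Cst E ∅ k (fun F => q (c F)) := by
      refine ⟨fun F hF => by simp only [hc.1 F hF, map_zero], fun F g h => rfl⟩
    obtain ⟨w1, hw1, hw1'⟩ := ex_inv0 v0 E k hk _ hp (by
      rw [bd_map, hcyc]; funext F; simp only [Pi.zero_apply, map_zero])
    obtain ⟨w2, hw2, hw2'⟩ := ex_cst hE k _ hq (by
      rw [bd_map, hcyc]; funext F; simp only [Pi.zero_apply, map_zero])
    refine ⟨w1 + w2, ⟨fun F hF => ?_, fun F => ?_⟩, ?_⟩
    · rw [Pi.add_apply, hw1.1 F hF, hw2.1 F hF, add_zero]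
    · refine (Inv _).add_mem (hw1.2 F).1 ?_
      intro g s _
      exact hw2.2 F _ _
    · rw [bd_add, hw1', hw2']
      funext F g
      change c F g - c F 1 + c F 1 = c F g
      ring
  · rw [Finset.not_nonempty_iff_eq_empty] at hE
    subst hE
    apply ex_empty_of
    intro hk0
    omega

theorem upper {G : SimpleGraph (Fin n)} (hn : 2 ≤ n) {k : ℕ} (h : HNonzero G k) :
    k + 2 ≤ n := by
  by_contra hcon
  rw [hnonzero_iff] at h
  exact h (ex_inv hn _ _ (by omega))

/-- Lower bound for connected graphs. -/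
theorem lower {G : SimpleGraph (Fin n)} (hn : 2 ≤ n) (hG : G.Connected) :
    ∃ k, HNonzero G k ∧ n ≤ numBlocks G + (k + 1) := by
  obtain ⟨j, hj, hnt⟩ := exists_nt R715.CSHB.thmB cshD cshE G ⟨0, by omega⟩ hG
  have hjn : (j : ℤ) ≤ n - 1 := by
    by_contra hcon
    obtain ⟨z, hz, _, hzn⟩ := hnt
    have hz0 : z = 0 := by
      funext F
      apply hz.1
      rintro ⟨_, h2⟩
      omega
    apply hzn 1 one_ne_zero
    exact ⟨0, IsCh.zero, by rw [bd_zero, hz0, smul_zero]⟩
  refine ⟨n - 1 - j, ?_, by omega⟩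
  apply hnonzero_of_nt (j := j) ⟨0, by omega⟩ (by omega)
  have : ((n - 1 - j : ℕ) : ℤ) = (n : ℤ) - 1 - j := by omega
  rw [this]
  exact hnt

/-- `H_0` never vanishes. -/
theorem hnonzero_zero (G : SimpleGraph (Fin n)) : HNonzero G 0 := by
  classical
  rw [hnonzero_iff]
  intro hex
  let δ : Equiv.Perm (Fin n) → ℤ := fun g => if g = 1 then 1 else 0
  have hc : IsCh Inv (edges G) ∅ ((0 : ℕ) : ℤ) (fun F => if F = ∅ then δ else 0) := by
    refine ⟨fun F hF => ?_, fun F => ?_⟩
    · simp only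
      rw [if_neg]
      rintro rfl
      exact hF ⟨Finset.empty_subset _, by simp⟩
    · simp only
      split_ifs with h
      · subst h
        intro g s hs
        have hs1 : s = 1 := by
          ext v
          have := hs v
          rw [Finset.union_empty] at this
          have h2 := reach_pred (F := (∅ : Finset (Pr n))) (Q := fun z => z = v) (by simp) this
          rw [h2.1 rfl]
          rfl
        rw [hs1, mul_one]
      · exact AddSubgroup.zero_mem _
  obtain ⟨w, hw, hw'⟩ := hex _ hc (by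
    funext F
    unfold bd
    apply Finset.sum_eq_zero
    intro e _
    change sg F e • (if insert e F = ∅ then δ else 0) = 0
    rw [if_neg (Finset.insert_ne_empty e F), smul_zero])
  -- the sign functional
  let S : (Equiv.Perm (Fin n) → ℤ) →+ ℤ :=
    AddMonoidHom.mk' (fun φ => ∑ g, ((Equiv.Perm.sign g : ℤˣ) : ℤ) * φ g) (by
      intro a b
      simp only [Pi.add_apply, mul_add, Finset.sum_add_distrib])
  have hS : ∀ e ∈ edges G, S (w {e}) = 0 := by
    intro e he
    have hlt := (mem_edges.1 he).1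
    have hsw : Equiv.swap (ofLex e).1 (ofLex e).2 ∈ stab ({e} ∪ ∅ : Finset (Pr n)) := by
      have hr : (graphOf ({e} ∪ ∅ : Finset (Pr n))).Reachable (ofLex e).1 (ofLex e).2 :=
        lp_of_mem (by simp)
      intro v
      by_cases h1 : v = (ofLex e).1
      · rw [h1, Equiv.swap_apply_left]; exact hr
      · by_cases h2 : v = (ofLex e).2
        · rw [h2, Equiv.swap_apply_right]; exact hr.symm
        · rw [Equiv.swap_apply_of_ne_of_ne h1 h2]
    have hinv := hw.2 {e}
    have h1 : S (w {e}) = - S (w {e}) := by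
      change ∑ g, ((Equiv.Perm.sign g : ℤˣ) : ℤ) * w {e} g = _
      rw [← Equiv.sum_comp (Equiv.mulRight (Equiv.swap (ofLex e).1 (ofLex e).2))
        (fun g => ((Equiv.Perm.sign g : ℤˣ) : ℤ) * w {e} g)]
      change _ = - ∑ g, ((Equiv.Perm.sign g : ℤˣ) : ℤ) * w {e} g
      rw [← Finset.sum_neg_distrib]
      apply Finset.sum_congr rfl
      intro g _
      simp only [Equiv.coe_mulRight]
      rw [hinv g _ hsw, Equiv.Perm.sign_mul, Equiv.Perm.sign_swap hlt.ne]
      push_cast
      ring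
    omega
  have h0 := congrFun hw' ∅
  simp only [if_true] at h0
  have h1 : S (bd (edges G) w ∅) = 0 := by
    unfold bd
    rw [map_sum]
    apply Finset.sum_eq_zero
    intro e he
    rw [map_zsmul]
    have := hS e (by simpa using he)
    have h2 : insert e (∅ : Finset (Pr n)) = {e} := by simp
    rw [h2, this, smul_zero]
  rw [h0] at h1
  change ∑ g, ((Equiv.Perm.sign g : ℤˣ) : ℤ) * δ g = 0 at h1
  simp [δ] at h1

theorem exists_greatest {G : SimpleGraph (Fin n)} (hn : 2 ≤ n) :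
    ∃ k, IsGreatest {k | HNonzero G k} k := by
  classical
  have hne : ∃ k, HNonzero G k := ⟨0, hnonzero_zero G⟩
  have hb : ∀ k, HNonzero G k → k ≤ n := fun k hk => by have := upper hn hk; omega
  refine ⟨Nat.findGreatest (fun k => HNonzero G k) n, ?_, ?_⟩
  · obtain ⟨k, hk⟩ := hne
    exact Nat.findGreatest_spec (P := fun k => HNonzero G k) (hb k hk) hk
  · intro k hk
    exact Nat.le_findGreatest (hb k hk) hk

end Pool.Agent.R864.CSH
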