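import Pool.Agent.R864.CSH.Defs2

/-!
Exact statements of the independent pieces of MP_5bcb58_co.
-/

namespace Pool.Agent.R864.CSH

open Finset

variable {n : ℕ}

/-- Piece D (normal spanning tree). -/
def StD : Prop :=
  ∀ (n : ℕ) (G : SimpleGraph (Fin n)) (r : Fin n), G.Connected →
    ∃ T : NTree G r, ∀ x y, G.Adj x y → T.anc x y ∨ T.anc y x

/-- Piece E (active vertices inject into blocks). -/
def StE : Prop :=
  ∀ (n : ℕ) (G : SimpleGraph (Fin n)) (r : Fin n) (T : NTree G r) (S : Finset (Fin n)),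
    (∀ v ∈ S, T.act v) → S.card ≤ numBlocks G

/-- Piece F (comparison of alternating functions with functions on `S_n`). -/
def StF : Prop :=
  ∀ (n j : ℕ), j ≤ n → ∃ (Φ : LF n →+ (Equiv.Perm (Fin n) → ℤ))
    (Ψ : (Equiv.Perm (Fin n) → ℤ) →+ LF n) (M : ℤ), M ≠ 0 ∧
    (∀ F : Finset (Pr n), ∀ f ∈ Au j F, Φ f ∈ Inv F) ∧
    (∀ F : Finset (Pr n), ∀ w ∈ Inv F, Ψ w ∈ Au j F) ∧
    (∀ F : Finset (Pr n), ∀ f ∈ Au j F, Ψ (Φ f) = M • f)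

/-- Piece B (exterior algebra on lists). -/
def StB : Prop :=
  ∀ (n : ℕ) (v0 : Fin n),
    (∀ (j : ℕ) (F : Finset (Pr n)) (e : Pr n), ∀ f ∈ Af v0 (j + 1) F, iota e f ∈ Af v0 j (insert e F)) ∧
    (∀ (j : ℕ) (F : Finset (Pr n)) (u : Fin n → ℤ), u v0 = 0 →
      (∀ e ∈ F, u (ofLex e).1 = u (ofLex e).2) → ∀ f ∈ Af v0 j F, mu u f ∈ Af v0 (j + 1) F) ∧
    (∀ (j : ℕ) (F : Finset (Pr n)) (u : Fin n → ℤ) (e : Pr n),
      ∀ f ∈ Af v0 j (insert e F), iota e (mu u f) = (u (ofLex e).2 - u (ofLex e).1) • f) ∧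
    (∀ (u : Fin n → ℤ) (f g : LF n), mu u (f + g) = mu u f + mu u g) ∧
    (∀ (j : ℕ) (F : Finset (Pr n)), (graphOf F).Connected → ∀ f ∈ Af v0 (j + 1) F, f = 0) ∧
    (∀ (j : ℕ) (F : Finset (Pr n)) (x y : Fin n), (graphOf F).Reachable x y →
      ∀ f ∈ Au j F, ∀ l, f (x :: l) = f (y :: l)) ∧
    (∀ (j : ℕ) (F : Finset (Pr n)), ∀ f ∈ Au j F,
      f - mu (fun _ => 1) (fun l => f (v0 :: l)) ∈ Af v0 j F)

end Pool.Agent.R864.CSH
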