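import Pool.Agent.R864.CSH.Van

/-!
The edges of a graph ordered along a normal spanning tree.
-/

namespace Pool.Agent.R864.CSH

open Finset

variable {n : ℕ}

theorem reach_pred {F : Finset (Pr n)} {Q : Fin n → Prop}
    (hQ : ∀ e ∈ F, (Q (ofLex e).1 ↔ Q (ofLex e).2)) {a b : Fin n}
    (h : (graphOf F).Reachable a b) : Q a ↔ Q b := by
  obtain ⟨w⟩ := h
  induction w with
  | nil => exact Iff.rfl
  | @cons a c b hac _ ih =>
    rw [graphOf_adj] at hac
    rw [← ih]
    rcases hac.2 with h | h
    · exact hQ _ h
    · exact (hQ _ h).symm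

/-- The pair of two vertices in increasing order. -/
def pr (a b : Fin n) : Pr n := if a < b then toLex (a, b) else toLex (b, a)

theorem pr_cases (a b : Fin n) :
    ((ofLex (pr a b)).1 = a ∧ (ofLex (pr a b)).2 = b) ∨
      ((ofLex (pr a b)).1 = b ∧ (ofLex (pr a b)).2 = a) := by
  unfold pr
  split_ifs
  · exact Or.inl ⟨rfl, rfl⟩
  · exact Or.inr ⟨rfl, rfl⟩

theorem mem_edges {G : SimpleGraph (Fin n)} {e : Pr n} :
    e ∈ edges G ↔ (ofLex e).1 < (ofLex e).2 ∧ G.Adj (ofLex e).1 (ofLex e).2 := by
  unfold edges
  simp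

theorem pr_mem {G : SimpleGraph (Fin n)} {a b : Fin n} (h : G.Adj a b) : pr a b ∈ edges G := by
  rw [mem_edges]
  unfold pr
  split_ifs with h1
  · exact ⟨h1, h⟩
  · refine ⟨lt_of_le_of_ne (not_lt.1 h1) ?_, h.symm⟩
    exact h.ne.symm

theorem reach_of_pr_mem {F : Finset (Pr n)} {a b : Fin n} (h : pr a b ∈ F) :
    (graphOf F).Reachable a b := by
  have h1 : (graphOf F).Reachable (ofLex (pr a b)).1 (ofLex (pr a b)).2 := lp_of_mem h
  rcases pr_cases a b with ⟨h2, h3⟩ | ⟨h2, h3⟩
  · rwa [h2, h3] at h1
  · rw [h2, h3] at h1; exact h1.symm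

theorem eq_pr_of_mem {G : SimpleGraph (Fin n)} {e : Pr n} (h : e ∈ edges G) :
    e = pr (ofLex e).1 (ofLex e).2 := by
  rw [mem_edges] at h
  unfold pr
  rw [if_pos h.1]
  rfl

namespace NTree

variable {G : SimpleGraph (Fin n)} {r : Fin n} (T : NTree G r)

theorem anc_self (v : Fin n) : T.anc v v := ⟨0, rfl⟩

theorem anc_parA {a v : Fin n} (h : T.anc a (T.par v)) : T.anc a v := by
  obtain ⟨i, hi⟩ := h
  exact ⟨i + 1, by rw [Function.iterate_succ_apply]; exact hi⟩

theorem anc_par_of_ne {a v : Fin n} (h : T.anc a v) (hne : a ≠ v) : T.anc a (T.par v) := by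
  obtain ⟨i, hi⟩ := h
  rcases i with _ | i
  · exact absurd hi.symm hne
  · exact ⟨i, by rw [Function.iterate_succ_apply] at hi; exact hi⟩

theorem anc_rootA {a : Fin n} (h : T.anc a r) : a = r := by
  obtain ⟨i, hi⟩ := h
  have : ∀ i, T.par^[i] r = r := by
    intro i
    induction i with
    | zero => rfl
    | succ i ih => rw [Function.iterate_succ_apply, T.par_root, ih]
  rw [← hi, this]

theorem dep_pos {v : Fin n} (h : v ≠ r) : T.dep (T.par v) < T.dep v := by
  have := T.dep_par v h; omega

theorem anc_depA {a : Fin n} : ∀ (i : ℕ) (v : Fin n), T.par^[i] v = a →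
    T.dep a ≤ T.dep v ∧ (a ≠ v → T.dep a < T.dep v) := by
  intro i
  induction i with
  | zero =>
    intro v h
    have h' : v = a := h
    subst h'
    exact ⟨le_rfl, fun h => absurd rfl h⟩
  | succ i ih =>
    intro v h
    by_cases hv : v = r
    · rw [hv] at h
      have ha : a = r := T.anc_rootA ⟨i + 1, h⟩
      rw [ha, hv]
      exact ⟨le_rfl, fun h => absurd rfl h⟩
    · rw [Function.iterate_succ_apply] at h
      have h1 := (ih _ h).1
      have h2 := T.dep_pos hv
      exact ⟨by omega, fun _ => by omega⟩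

theorem anc_dep_le {a v : Fin n} (h : T.anc a v) : T.dep a ≤ T.dep v := by
  obtain ⟨i, hi⟩ := h; exact (T.anc_depA i v hi).1

theorem anc_dep_lt {a v : Fin n} (h : T.anc a v) (hne : a ≠ v) : T.dep a < T.dep v := by
  obtain ⟨i, hi⟩ := h; exact (T.anc_depA i v hi).2 hne

theorem anc_comparable {a b x : Fin n} (ha : T.anc a x) (hb : T.anc b x) :
    T.anc a b ∨ T.anc b a := by
  obtain ⟨i, hi⟩ := ha
  obtain ⟨j, hj⟩ := hb
  rcases le_total i j with h | h
  · right
    refine ⟨j - i, ?_⟩
    rw [← hi, ← Function.iterate_add_apply]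
    rwa [Nat.sub_add_cancel h]
  · left
    refine ⟨i - j, ?_⟩
    rw [← hj, ← Function.iterate_add_apply]
    rwa [Nat.sub_add_cancel h]

theorem anc_trans {a b c : Fin n} (h1 : T.anc a b) (h2 : T.anc b c) : T.anc a c := by
  obtain ⟨i, hi⟩ := h1
  obtain ⟨j, hj⟩ := h2
  exact ⟨i + j, by rw [Function.iterate_add_apply, hj, hi]⟩

/-- Tree edge below `v`. -/
def te (v : Fin n) : Pr n := pr (T.par v) v

open Classical in
/-- All tree edges. -/
noncomputable def tree : Finset (Pr n) := (univ.filter (fun v => v ≠ r)).image T.te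

open Classical in
/-- The active tree edges. -/
noncomputable def atree : Finset (Pr n) := (univ.filter (fun v => T.act v)).image T.te

theorem mem_tree {e : Pr n} : e ∈ T.tree ↔ ∃ v, v ≠ r ∧ T.te v = e := by
  unfold tree; simp

theorem mem_atree {e : Pr n} : e ∈ T.atree ↔ ∃ v, T.act v ∧ T.te v = e := by
  unfold atree; simp

theorem atree_sub : T.atree ⊆ T.tree := by
  intro e he
  rw [mem_atree] at he
  obtain ⟨v, hv, rfl⟩ := he
  exact T.mem_tree.2 ⟨v, hv.1, rfl⟩

theorem tree_sub : T.tree ⊆ edges G := by
  intro e he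
  rw [mem_tree] at he
  obtain ⟨v, hv, rfl⟩ := he
  exact pr_mem (T.adj v hv)

open Classical in
/-- The key of a pair: twice the depth of the upper end point, plus one for non-tree edges. -/
noncomputable def key (e : Pr n) : ℕ :=
  2 * min (T.dep (ofLex e).1) (T.dep (ofLex e).2) + (if e ∈ T.tree then 0 else 1)

theorem min_pr (a b : Fin n) (h : T.dep a ≤ T.dep b) :
    min (T.dep (ofLex (pr a b)).1) (T.dep (ofLex (pr a b)).2) = T.dep a := by
  rcases pr_cases a b with ⟨h1, h2⟩ | ⟨h1, h2⟩ <;> rw [h1, h2]
  · exact min_eq_left h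
  · exact min_eq_right h

theorem key_te {v : Fin n} (hv : v ≠ r) : T.key (T.te v) = 2 * T.dep (T.par v) := by
  unfold key
  rw [if_pos (T.mem_tree.2 ⟨v, hv, rfl⟩)]
  unfold te
  rw [T.min_pr _ _ (T.dep_pos hv).le, add_zero]

theorem key_le (a b : Fin n) (h : T.dep a ≤ T.dep b) : T.key (pr a b) ≤ 2 * T.dep a + 1 := by
  unfold key
  rw [T.min_pr _ _ h]
  split_ifs <;> omega

theorem key_eq_of_not_mem {a b : Fin n} (h : T.dep a ≤ T.dep b) (hn : pr a b ∉ T.tree) :
    T.key (pr a b) = 2 * T.dep a + 1 := by
  unfold key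
  rw [T.min_pr _ _ h, if_neg hn]

theorem pr_comm (a b : Fin n) (h : a ≠ b) : pr a b = pr b a := by
  unfold pr
  rcases lt_or_gt_of_ne h with h1 | h1
  · rw [if_pos h1, if_neg (not_lt.2 h1.le)]
  · rw [if_neg (not_lt.2 h1.le), if_pos h1]

/-- Along tree edges other than the one below `v` the subtree of `v` is closed. -/
theorem sub_tree {v : Fin n} {e : Pr n} (he : e ∈ T.tree) (hne : e ≠ T.te v) :
    T.anc v (ofLex e).1 ↔ T.anc v (ofLex e).2 := by
  obtain ⟨w, hw, rfl⟩ := T.mem_tree.1 he
  have hwv : v ≠ w := by rintro rfl; exact hne rfl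
  have key : T.anc v (T.par w) ↔ T.anc v w := ⟨T.anc_parA, fun h => T.anc_par_of_ne h hwv⟩
  rcases pr_cases (T.par w) w with ⟨h1, h2⟩ | ⟨h1, h2⟩
  · unfold te; rw [h1, h2]; exact key
  · unfold te; rw [h1, h2]; exact key.symm

theorem not_anc_par {v : Fin n} (hv : v ≠ r) : ¬ T.anc v (T.par v) := by
  intro h
  have := T.anc_dep_le h
  have := T.dep_pos hv
  omega

open Classical in
/-- All conditions of `path` along the list of edges sorted by the key. -/
theorem cond (hN : ∀ x y, G.Adj x y → T.anc x y ∨ T.anc y x)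
    (L P S : List (Pr n)) (e : Pr n) (hL : L = P ++ e :: S) (hnd : L.Nodup)
    (hset : ∀ x, x ∈ L ↔ x ∈ edges G) (hsort : L.Pairwise (fun a b => T.key a ≤ T.key b)) :
    ¬ Lp (T.tree ∩ S.toFinset) e ∧
      (e ∈ T.tree → e ∉ T.atree → (graphOf (P.toFinset ∪ (T.tree ∩ S.toFinset))).Connected) ∧
      (e ∈ T.atree → ∃ u : Fin n → ℤ, u r = 0 ∧
        (∀ e' ∈ P.toFinset ∪ (T.tree ∩ S.toFinset), u (ofLex e').1 = u (ofLex e').2) ∧
        u (ofLex e).2 - u (ofLex e).1 = 1) := by
  subst hL
  have hP : ∀ p ∈ P, T.key p ≤ T.key e := fun p hp =>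
    (List.pairwise_append.1 hsort).2.2 p hp e List.mem_cons_self
  have hS : ∀ s ∈ S, T.key e ≤ T.key s := fun s hs =>
    (List.pairwise_cons.1 (List.pairwise_append.1 hsort).2.1).1 s hs
  have heP : ∀ p ∈ P, p ≠ e := fun p hp =>
    (List.nodup_append.1 hnd).2.2 p hp e List.mem_cons_self
  have heS : ∀ s ∈ S, s ≠ e := by
    rintro s hs rfl
    exact (List.nodup_cons.1 (List.nodup_append.1 hnd).2.1).1 hs
  have heG : e ∈ edges G := (hset e).1 (by simp)
  have hmem : ∀ x, x ∈ edges G → x ≠ e → x ∈ P ∨ x ∈ S := by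
    intro x hx hxe
    have := (hset x).2 hx
    simp only [List.mem_append, List.mem_cons] at this
    tauto
  -- tree edges other than `e` are present
  have htree : ∀ x ∈ T.tree, x ≠ e → x ∈ P.toFinset ∪ (T.tree ∩ S.toFinset) := by
    intro x hx hxe
    rcases hmem x (T.tree_sub hx) hxe with h | h
    · exact Finset.mem_union_left _ (List.mem_toFinset.2 h)
    · exact Finset.mem_union_right _ (Finset.mem_inter.2 ⟨hx, List.mem_toFinset.2 h⟩)
  refine ⟨?_, ?_, ?_⟩
  · intro hlp
    by_cases heT : e ∈ T.tree
    · obtain ⟨v, hv, rfl⟩ := T.mem_tree.1 heT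
      have h1 := reach_pred (Q := fun z => T.anc v z) (F := T.tree ∩ S.toFinset) (by
        intro e' he'
        rw [Finset.mem_inter, List.mem_toFinset] at he'
        exact T.sub_tree he'.1 (heS _ he'.2)) hlp
      rcases pr_cases (T.par v) v with ⟨h2, h3⟩ | ⟨h2, h3⟩
      · unfold te at h1
        rw [h2, h3] at h1
        exact T.not_anc_par hv (h1.2 (T.anc_self v))
      · unfold te at h1
        rw [h2, h3] at h1
        exact T.not_anc_par hv (h1.1 (T.anc_self v))
    · -- back edge
      have main : ∀ y x : Fin n, e = pr y x → y ≠ x → T.anc y x → False := by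
        intro y x hexy hne hanc
        have hd := T.anc_dep_lt hanc hne
        have hk : T.key e = 2 * T.dep y + 1 := by
          rw [hexy] at heT ⊢
          exact T.key_eq_of_not_mem hd.le heT
        have hr : (graphOf (T.tree ∩ S.toFinset)).Reachable y x := by
          unfold Lp at hlp
          rw [hexy] at hlp
          rcases pr_cases y x with ⟨h2, h3⟩ | ⟨h2, h3⟩
          · rwa [h2, h3] at hlp
          · rw [h2, h3] at hlp; exact hlp.symm
        have h1 := reach_pred (Q := fun z => z = y) (F := T.tree ∩ S.toFinset) (by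
          intro e' he'
          rw [Finset.mem_inter, List.mem_toFinset] at he'
          obtain ⟨w, hw, rfl⟩ := T.mem_tree.1 he'.1
          have hk2 := hS _ he'.2
          rw [T.key_te hw, hk] at hk2
          have hd2 := T.dep_pos hw
          have n1 : T.par w ≠ y := by rintro h; rw [h] at hk2; omega
          have n2 : w ≠ y := by rintro h; rw [h] at hd2 hk2; omega
          rcases pr_cases (T.par w) w with ⟨h2, h3⟩ | ⟨h2, h3⟩
          · unfold te; rw [h2, h3]; simp [n1, n2]
          · unfold te; rw [h2, h3]; simp [n1, n2]) hr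
        simp only [true_iff] at h1
        exact hne h1.symm
      have hadj := (mem_edges.1 heG)
      rcases hN _ _ hadj.2 with h | h
      · exact main _ _ (eq_pr_of_mem heG) hadj.1.ne h
      · exact main _ _ ((eq_pr_of_mem heG).trans (pr_comm _ _ hadj.1.ne)) hadj.1.ne.symm h
  · intro heT heA
    obtain ⟨v, hv, rfl⟩ := T.mem_tree.1 heT
    have hact : ¬ T.act v := fun h => heA (T.mem_atree.2 ⟨v, h, rfl⟩)
    have hex : ∃ x y, G.Adj x y ∧ T.anc v x ∧ ¬ T.anc v y ∧ y ≠ T.par v := by
      by_contra hcon
      push Not at hcon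
      exact hact ⟨hv, hcon⟩
    obtain ⟨x, y, hxy, hvx, hvy, hyp⟩ := hex
    set F := P.toFinset ∪ (T.tree ∩ S.toFinset) with hF
    have hstep : ∀ w, w ≠ r → w ≠ v → (graphOf F).Reachable w (T.par w) := by
      intro w hw hwv
      have hne : T.te w ≠ T.te v := by
        intro h
        rcases pr_cases (T.par w) w with ⟨h1, h2⟩ | ⟨h1, h2⟩ <;>
          rcases pr_cases (T.par v) v with ⟨h3, h4⟩ | ⟨h3, h4⟩ <;>
          unfold te at h <;> rw [h] at h1 h2
        · exact hwv (h2.symm.trans h4)
        · have e1 := h1.symm.trans h3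
          have e2 := h2.symm.trans h4
          have d1 := T.dep_pos hw
          have d2 := T.dep_pos hv
          rw [e1] at d1; rw [← e2] at d2
          omega
        · have e1 := h1.symm.trans h3
          have e2 := h2.symm.trans h4
          have d1 := T.dep_pos hw
          have d2 := T.dep_pos hv
          rw [← e1] at d2; rw [e2] at d1
          omega
        · exact hwv (h1.symm.trans h3)
      have := htree (T.te w) (T.mem_tree.2 ⟨w, hw, rfl⟩) hne
      exact (reach_of_pr_mem this).symm
    have hup : ∀ m : ℕ, ∀ w, T.dep w = m → ¬ T.anc v w → (graphOf F).Reachable w r := by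
      intro m
      induction m using Nat.strong_induction_on with
      | _ m ih =>
        intro w hw hvw
        by_cases hwr : w = r
        · rw [hwr]
        · have hwv : w ≠ v := by rintro rfl; exact hvw (T.anc_self _)
          have h1 := hstep w hwr hwv
          refine h1.trans (ih (T.dep (T.par w)) ?_ _ rfl (fun h => hvw (T.anc_parA h)))
          rw [← hw]; exact T.dep_pos hwr
    have hdown : ∀ m : ℕ, ∀ w, T.dep w = m → T.anc v w → (graphOf F).Reachable w v := by
      intro m
      induction m using Nat.strong_induction_on with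
      | _ m ih =>
        intro w hw hvw
        by_cases hwv : w = v
        · rw [hwv]
        · have hwr : w ≠ r := by
            rintro rfl
            exact hv (T.anc_rootA hvw)
          have h1 := hstep w hwr hwv
          refine h1.trans (ih (T.dep (T.par w)) ?_ _ rfl (T.anc_par_of_ne hvw (Ne.symm hwv)))
          rw [← hw]; exact T.dep_pos hwr
    have hyx : T.anc y x := by
      rcases hN x y hxy with h | h
      · exact absurd (T.anc_trans hvx h) hvy
      · exact h
    have hyv : T.anc y v := by
      rcases T.anc_comparable hyx hvx with h | h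
      · exact h
      · exact absurd h hvy
    have hyne : y ≠ v := by rintro rfl; exact hvy (T.anc_self _)
    have hypv : T.anc y (T.par v) := T.anc_par_of_ne hyv hyne
    have hd1 : T.dep y < T.dep (T.par v) := T.anc_dep_lt hypv hyp
    have hdyx : T.dep y ≤ T.dep x := T.anc_dep_le hyx
    have hkey : T.key (pr y x) < T.key (T.te v) := by
      have := T.key_le y x hdyx
      rw [T.key_te hv]
      omega
    have hin : pr y x ∈ F := by
      rcases hmem (pr y x) (pr_mem hxy.symm) (by
        intro h; rw [h] at hkey; omega) with h | h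
      · exact Finset.mem_union_left _ (List.mem_toFinset.2 h)
      · have := hS _ h
        omega
    have hvr : (graphOf F).Reachable v r :=
      ((hdown _ x rfl hvx).symm.trans (reach_of_pr_mem hin).symm).trans (hup _ y rfl hvy)
    have hall : ∀ w, (graphOf F).Reachable w r := by
      intro w
      by_cases hw : T.anc v w
      · exact (hdown _ w rfl hw).trans hvr
      · exact hup _ w rfl hw
    haveI : Nonempty (Fin n) := ⟨r⟩
    exact ⟨fun a b => (hall a).trans (hall b).symm⟩
  · intro heA
    obtain ⟨v, hact, rfl⟩ := T.mem_atree.1 heA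
    have hv := hact.1
    have hconst : ∀ e' ∈ P.toFinset ∪ (T.tree ∩ S.toFinset),
        (T.anc v (ofLex e').1 ↔ T.anc v (ofLex e').2) := by
      intro e' he'
      have hne : e' ≠ T.te v := by
        rcases Finset.mem_union.1 he' with h | h
        · exact heP _ (List.mem_toFinset.1 h)
        · exact heS _ (List.mem_toFinset.1 (Finset.mem_inter.1 h).2)
      by_cases heT : e' ∈ T.tree
      · exact T.sub_tree heT hne
      · rcases Finset.mem_union.1 he' with h | h
        · have hP' := hP _ (List.mem_toFinset.1 h)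
          rw [T.key_te hv] at hP'
          have hG' : e' ∈ edges G := by
            rw [← hset]; exact List.mem_append_left _ (List.mem_toFinset.1 h)
          have hadj := mem_edges.1 hG'
          have main : ∀ x y, e' = pr y x → G.Adj x y → T.anc v x → ¬ T.anc v y → False := by
            intro x y hexy hxy hvx hvy
            have hy := hact.2 x y hxy hvx hvy
            subst hy
            have h1 := T.anc_dep_le hvx
            have h2 := T.dep_pos hv
            rw [hexy] at hP' heT
            rw [T.key_eq_of_not_mem (by omega) heT] at hP'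
            omega
          constructor
          · intro h1
            by_contra h2
            exact main _ _ ((eq_pr_of_mem hG').trans (pr_comm _ _ hadj.1.ne)) hadj.2 h1 h2
          · intro h1
            by_contra h2
            exact main _ _ (eq_pr_of_mem hG') hadj.2.symm h1 h2
        · exact absurd (Finset.mem_inter.1 h).1 heT
    have hr0 : ¬ T.anc v r := fun h => hv (T.anc_rootA h)
    rcases pr_cases (T.par v) v with ⟨h2, h3⟩ | ⟨h2, h3⟩
    · refine ⟨fun w => if T.anc v w then 1 else 0, if_neg hr0, ?_, ?_⟩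
      · intro e' he'
        simp only [hconst e' he']
      · unfold te
        simp only [h2, h3]
        rw [if_pos (T.anc_self v), if_neg (T.not_anc_par hv)]
        norm_num
    · refine ⟨fun w => if T.anc v w then -1 else 0, if_neg hr0, ?_, ?_⟩
      · intro e' he'
        simp only [hconst e' he']
      · unfold te
        simp only [h2, h3]
        rw [if_pos (T.anc_self v), if_neg (T.not_anc_par hv)]
        norm_num

theorem tree_connected : (graphOf T.tree).Connected := by
  have hall : ∀ m : ℕ, ∀ w, T.dep w = m → (graphOf T.tree).Reachable w r := by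
    intro m
    induction m using Nat.strong_induction_on with
    | _ m ih =>
      intro w hw
      by_cases hwr : w = r
      · rw [hwr]
      · have h1 : (graphOf T.tree).Reachable w (T.par w) :=
          (reach_of_pr_mem (T.mem_tree.2 ⟨w, hwr, rfl⟩)).symm
        refine h1.trans (ih (T.dep (T.par w)) ?_ _ rfl)
        rw [← hw]; exact T.dep_pos hwr
  haveI : Nonempty (Fin n) := ⟨r⟩
  exact ⟨fun a b => (hall _ a rfl).trans (hall _ b rfl).symm⟩

end NTree

/-- The non-torsion class of a connected graph. -/
theorem exists_nt (hB : StB) (hD : StD) (hE : StE) (G : SimpleGraph (Fin n)) (r : Fin n)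
    (hG : G.Connected) : ∃ j : ℕ, j ≤ numBlocks G ∧ NT (Af r j) (edges G) ∅ ((n : ℤ) - 1 - j) := by
  classical
  obtain ⟨T, hN⟩ := hD n G r hG
  let le : Pr n → Pr n → Prop := fun a b => T.key a ≤ T.key b
  haveI : Std.Total le := ⟨fun a b => le_total _ _⟩
  haveI : IsTrans (Pr n) le := ⟨fun a b c h1 h2 => le_trans h1 h2⟩
  let L := List.insertionSort le (edges G).toList
  have hperm : List.Perm L (edges G).toList := List.perm_insertionSort le _
  have hnd : L.Nodup := hperm.nodup_iff.2 (Finset.nodup_toList _)
  have hset : ∀ x, x ∈ L ↔ x ∈ edges G := fun x => by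
    rw [hperm.mem_iff, Finset.mem_toList]
  have hsort : L.Pairwise le := List.pairwise_insertionSort le _
  have hLf : L.toFinset = edges G := by
    ext x; rw [List.mem_toFinset, hset]
  have hTL : T.tree ∩ L.toFinset = T.tree := by
    rw [hLf]; exact Finset.inter_eq_left.2 T.tree_sub
  have hTaL : T.atree ∩ L.toFinset = T.atree := by
    rw [hLf]; exact Finset.inter_eq_left.2 (T.atree_sub.trans T.tree_sub)
  have h0 : NT (Af r 0) ([] : List (Pr n)).toFinset (T.tree ∩ L.toFinset)
      ((cc (T.tree ∩ L.toFinset) : ℤ) - 1 - (0 : ℕ)) := by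
    rw [hTL]
    exact nt_start hB r T.tree T.tree_connected
  have h1 := path hB r T.tree T.atree T.atree_sub L hnd
    (fun P e S hL => T.cond hN L P S e hL hnd hset hsort) L [] rfl 0 h0
  rw [hTaL, hLf, zero_add] at h1
  refine ⟨T.atree.card, ?_, h1⟩
  have h2 : T.atree.card ≤ (univ.filter (fun v => T.act v)).card := Finset.card_image_le
  refine h2.trans (hE n G r T _ ?_)
  intro v hv
  exact (Finset.mem_filter.1 hv).2

end Pool.Agent.R864.CSH
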