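import Pool.Agent.R864.CSH.Fin1

/-!
The graph `2K_2`.
-/

namespace Pool.Agent.R864.CSH

open Finset

/-- Two disjoint edges `{0,1}` and `{2,3}`. -/
def twoK2 : SimpleGraph (Fin 4) :=
  SimpleGraph.fromRel (fun a b => (a = 0 ∧ b = 1) ∨ (a = 2 ∧ b = 3))

abbrev e1 : Pr 4 := toLex (0, 1)
abbrev e2 : Pr 4 := toLex (2, 3)

theorem twoK2_adj (a b : Fin 4) : twoK2.Adj a b ↔
    (a = 0 ∧ b = 1) ∨ (a = 1 ∧ b = 0) ∨ (a = 2 ∧ b = 3) ∨ (a = 3 ∧ b = 2) := by
  unfold twoK2
  rw [SimpleGraph.fromRel_adj]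
  revert a b
  decide

theorem edges_twoK2 : edges twoK2 = insert e1 {e2} := by
  ext e
  rw [mem_edges, twoK2_adj]
  simp only [Finset.mem_insert, Finset.mem_singleton]
  have h : ∀ a b : Fin 4, (a < b ∧ ((a = 0 ∧ b = 1) ∨ (a = 1 ∧ b = 0) ∨ (a = 2 ∧ b = 3) ∨
      (a = 3 ∧ b = 2))) ↔ ((a, b) = (0, 1) ∨ (a, b) = (2, 3)) := by decide
  exact h (ofLex e).1 (ofLex e).2

theorem swap_mem_stab {n : ℕ} {F : Finset (Pr n)} {e : Pr n} (he : e ∈ F) :
    Equiv.swap (ofLex e).1 (ofLex e).2 ∈ stab F := by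
  have hr : (graphOf F).Reachable (ofLex e).1 (ofLex e).2 := lp_of_mem he
  intro v
  by_cases h1 : v = (ofLex e).1
  · rw [h1, Equiv.swap_apply_left]; exact hr
  · by_cases h2 : v = (ofLex e).2
    · rw [h2, Equiv.swap_apply_right]; exact hr.symm
    · rw [Equiv.swap_apply_of_ne_of_ne h1 h2]

theorem perm4 : ∀ s : Equiv.Perm (Fin 4), (∀ v, (v < 2 ↔ s v < 2)) →
    s = 1 ∨ s = Equiv.swap 0 1 ∨ s = Equiv.swap 2 3 ∨ s = Equiv.swap 0 1 * Equiv.swap 2 3 := by
  decide

theorem inv_inf (φ : Equiv.Perm (Fin 4) → ℤ) (h1 : φ ∈ Inv {e1}) (h2 : φ ∈ Inv {e2}) :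
    φ ∈ Inv ({e2} ∪ {e1} : Finset (Pr 4)) := by
  intro g s hs
  have hs' : ∀ v, (v < 2 ↔ s v < 2) := fun v =>
    reach_pred (F := ({e2} ∪ {e1} : Finset (Pr 4))) (Q := fun z => z < 2) (by decide) (hs v)
  have a1 : Equiv.swap (0 : Fin 4) 1 ∈ stab ({e1} : Finset (Pr 4)) :=
    swap_mem_stab (Finset.mem_singleton_self e1)
  have a2 : Equiv.swap (2 : Fin 4) 3 ∈ stab ({e2} : Finset (Pr 4)) :=
    swap_mem_stab (Finset.mem_singleton_self e2)
  rcases perm4 s hs' with rfl | rfl | rfl | rfl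
  · rw [mul_one]
  · exact h1 g _ a1
  · exact h2 g _ a2
  · rw [← mul_assoc, h2 _ _ a2, h1 _ _ a1]

theorem ex_twoK2 (k : ℤ) (hk : 1 ≤ k) : Ex Inv (edges twoK2) ∅ k := by
  rw [edges_twoK2]
  have he : e1 ∉ ({e2} : Finset (Pr 4)) := by decide
  intro c hc hcyc
  obtain ⟨q0, q1⟩ := cycle_parts he hc Off.zero Off.zero (glue_zero e1).symm hcyc
  have h0 := IsCh.part0 hc
  have h1 := IsCh.part1 hc
  have hb : bd {e2} (part0 e1 c) = - part1 e1 c := eq_neg_of_add_eq_zero_left q0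
  refine ⟨glue e1 0 (part0 e1 c), IsCh.glue IsCh.zero ?_, ?_⟩
  · rw [add_sub_cancel_right]
    refine ⟨h0.1, fun F => ?_⟩
    by_cases hF : F ⊆ {e2} ∧ (F.card : ℤ) = k
    · have hF2 : F = {e2} := by
        rcases Finset.subset_singleton_iff.1 hF.1 with h | h
        · rw [h] at hF
          simp only [Finset.card_empty, Nat.cast_zero] at hF
          omega
        · exact h
      subst hF2
      have hA : part0 e1 c {e2} ∈ Inv {e2} := by
        have := h0.2 {e2}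
        rwa [Finset.union_empty] at this
      have hB : part0 e1 c {e2} ∈ Inv {e1} := by
        have h3 := congrFun hb ∅
        have h4 : bd {e2} (part0 e1 c) ∅ = part0 e1 c {e2} := by
          unfold bd
          rw [Finset.sdiff_empty, Finset.sum_singleton]
          unfold sg
          simp
        rw [h4] at h3
        rw [h3]
        have h5 := h1.2 ∅
        rw [Finset.empty_union] at h5
        exact (Inv _).neg_mem h5
      exact inv_inf _ hB hA
    · rw [h0.1 F hF]; exact AddSubgroup.zero_mem _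
  · rw [bd_glue he, bd_zero, zero_add, hb, neg_neg, glue_parts]

theorem isSpan_twoK2 : IsSpan twoK2 1 := by
  refine ⟨0, ⟨hnonzero_zero _, ?_⟩, rfl⟩
  intro k hk
  by_contra hcon
  exact hnonzero_iff.1 hk (ex_twoK2 k (by omega))

theorem adj01 : twoK2.Adj 0 1 := (twoK2_adj 0 1).2 (by decide)
theorem adj23 : twoK2.Adj 2 3 := (twoK2_adj 2 3).2 (by decide)

theorem side {B : twoK2.Subgraph} (hB : B.Connected) {v w : Fin 4} (hv : v ∈ B.verts)
    (hw : w ∈ B.verts) : v < 2 ↔ w < 2 := by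
  have h := hB.coe.preconnected ⟨v, hv⟩ ⟨w, hw⟩
  obtain ⟨p⟩ := h
  have key : ∀ (a b : B.verts) (_ : B.coe.Walk a b), (a.1 < 2 ↔ b.1 < 2) := by
    intro a b p
    induction p with
    | nil => exact Iff.rfl
    | cons h q ih =>
      rw [← ih]
      have h4 := B.adj_sub h
      rw [twoK2_adj] at h4
      rcases h4 with ⟨h5, h6⟩ | ⟨h5, h6⟩ | ⟨h5, h6⟩ | ⟨h5, h6⟩ <;> rw [h5, h6] <;> decide
  exact key _ _ p

theorem le01 {B : twoK2.Subgraph} (hB : B.Connected) {v : Fin 4} (hv : v ∈ B.verts)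
    (h2 : v < 2) : B ≤ twoK2.subgraphOfAdj adj01 := by
  have hlt : ∀ w ∈ B.verts, w < 2 := fun w hw => (side hB hv hw).1 h2
  constructor
  · intro w hw
    have := hlt w hw
    simp only [SimpleGraph.subgraphOfAdj_verts, Set.mem_insert_iff, Set.mem_singleton_iff]
    exact (show ∀ w : Fin 4, w < 2 → w = 0 ∨ w = 1 by decide) w this
  · intro a b hab
    have ha := hlt a (B.edge_vert hab)
    have h4 := B.adj_sub hab
    rw [twoK2_adj] at h4
    rw [SimpleGraph.subgraphOfAdj_adj]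
    rcases h4 with ⟨h5, h6⟩ | ⟨h5, h6⟩ | ⟨h5, h6⟩ | ⟨h5, h6⟩
    · rw [h5, h6]
    · rw [h5, h6]; exact Sym2.eq_swap
    · rw [h5] at ha; exact absurd ha (by decide)
    · rw [h5] at ha; exact absurd ha (by decide)

theorem le23 {B : twoK2.Subgraph} (hB : B.Connected) {v : Fin 4} (hv : v ∈ B.verts)
    (h2 : ¬ v < 2) : B ≤ twoK2.subgraphOfAdj adj23 := by
  have hlt : ∀ w ∈ B.verts, ¬ w < 2 := fun w hw hh => h2 ((side hB hv hw).2 hh)
  constructor
  · intro w hw
    have := hlt w hw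
    simp only [SimpleGraph.subgraphOfAdj_verts, Set.mem_insert_iff, Set.mem_singleton_iff]
    exact (show ∀ w : Fin 4, ¬ w < 2 → w = 2 ∨ w = 3 by decide) w this
  · intro a b hab
    have ha := hlt a (B.edge_vert hab)
    have h4 := B.adj_sub hab
    rw [twoK2_adj] at h4
    rw [SimpleGraph.subgraphOfAdj_adj]
    rcases h4 with ⟨h5, h6⟩ | ⟨h5, h6⟩ | ⟨h5, h6⟩ | ⟨h5, h6⟩
    · rw [h5] at ha; exact absurd (by decide) ha
    · rw [h5] at ha; exact absurd (by decide) ha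
    · rw [h5, h6]
    · rw [h5, h6]; exact Sym2.eq_swap

theorem block01 : IsBlock (twoK2.subgraphOfAdj adj01) := by
  refine ⟨⟨SimpleGraph.Subgraph.subgraphOfAdj_connected _, edge_no_cut _⟩, ?_⟩
  intro K hK hle
  exact le01 hK.1 (v := 0) (hle.1 (by simp)) (by decide)

theorem block23 : IsBlock (twoK2.subgraphOfAdj adj23) := by
  refine ⟨⟨SimpleGraph.Subgraph.subgraphOfAdj_connected _, edge_no_cut _⟩, ?_⟩
  intro K hK hle
  exact le23 hK.1 (v := 2) (hle.1 (by simp)) (by decide)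

theorem numBlocks_twoK2 : numBlocks twoK2 = 2 := by
  have hset : {H : twoK2.Subgraph | IsBlock H} =
      {twoK2.subgraphOfAdj adj01, twoK2.subgraphOfAdj adj23} := by
    ext B
    simp only [Set.mem_ofPred_eq, Set.mem_insert_iff, Set.mem_singleton_iff]
    constructor
    · intro hB
      obtain ⟨v, hv⟩ := hB.prop.1.nonempty
      by_cases h2 : v < 2
      · left; exact hB.eq_of_le block01.prop (le01 hB.prop.1 hv h2)
      · right; exact hB.eq_of_le block23.prop (le23 hB.prop.1 hv h2)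
    · rintro (rfl | rfl)
      · exact block01
      · exact block23
  have hne : twoK2.subgraphOfAdj adj01 ≠ twoK2.subgraphOfAdj adj23 := by
    intro h
    have h1 : (0 : Fin 4) ∈ (twoK2.subgraphOfAdj adj01).verts := by simp
    rw [h] at h1
    simp at h1
  have : numBlocks twoK2 = Set.ncard {H : twoK2.Subgraph | IsBlock H} := rfl
  rw [this, hset, Set.ncard_pair hne]

end Pool.Agent.R864.CSH
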