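import Pool.Agent.R864.CSH.Stm
import Pool.Agent.R864.CSH.Cx
import Pool.Agent.R864.CSH.Comp

/-!
Vanishing below and above, and the non-torsion class along a list of edges.
-/

namespace Pool.Agent.R864.CSH

open Finset

variable {n : ℕ}

section general
variable {X : Type*} [AddCommGroup X]

theorem ex_empty_of {A : Finset (Pr n) → AddSubgroup X} {R : Finset (Pr n)} {k : ℤ}
    (h : k = 0 → ∀ f ∈ A R, f = 0) : Ex A ∅ R k := by
  intro c hc _
  have hc0 : c = 0 := by
    funext F
    by_cases hF : F ⊆ ∅ ∧ (F.card : ℤ) = k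
    · have hF0 : F = ∅ := Finset.subset_empty.1 hF.1
      subst hF0
      have hk : k = 0 := by rw [← hF.2]; simp
      have := hc.2 ∅
      rw [Finset.empty_union] at this
      exact h hk _ this
    · exact hc.1 F hF
  exact ⟨0, IsCh.zero, by rw [bd_zero, hc0]⟩

/-- Vanishing above. -/
theorem uv {A : Finset (Pr n) → AddSubgroup X} (hA : ∀ F F', F ⊆ F' → A F' ≤ A F) (s : ℤ)
    (hloop : ∀ F (e : Pr n), Lp F e → A F ≤ A (insert e F))
    (hs : ∀ R, (cc R : ℤ) ≤ s → ∀ f ∈ A R, f = 0) :
    ∀ (E R : Finset (Pr n)) (k : ℤ), (cc R : ℤ) - 1 - s < k → Ex A E R k := by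
  intro E
  induction E using Finset.induction_on with
  | empty =>
    intro R k hk
    apply ex_empty_of
    intro hk0 f hf
    exact hs R (by omega) f hf
  | insert e E he ih =>
    intro R k hk
    by_cases hl : Lp R e
    · apply ex_loop k he
      intro F _
      have := hloop (F ∪ R) e (hl.mono Finset.subset_union_right)
      rwa [← Finset.union_insert] at this
    · have hcc := cc_insert hl
      apply ex_insert hA he (ih R k hk)
      apply ih
      have : (cc (insert e R) : ℤ) + 1 = cc R := by exact_mod_cast hcc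
      omega

end general

/-- The contraction as an additive map. -/
def iotaHom (e : Pr n) : LF n →+ LF n where
  toFun := iota e
  map_zero' := by funext l; simp [iota]
  map_add' := by
    intro f g
    funext l
    simp only [iota, Pi.add_apply]; ring

theorem af_mono (v0 : Fin n) (j : ℕ) {F F' : Finset (Pr n)} (h : F ⊆ F') :
    Af v0 j F' ≤ Af v0 j F := by
  rintro f ⟨⟨h1, h2, h3⟩, h4⟩
  exact ⟨⟨h1, h2, fun e he => h3 e (h he)⟩, h4⟩

theorem af_insert {v0 : Fin n} {j : ℕ} {F : Finset (Pr n)} {e : Pr n} {f : LF n}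
    (hf : f ∈ Af v0 j F) (h : ∀ l, f ((ofLex e).1 :: l) = f ((ofLex e).2 :: l)) :
    f ∈ Af v0 j (insert e F) := by
  obtain ⟨⟨h1, h2, h3⟩, h4⟩ := hf
  refine ⟨⟨h1, h2, fun e' he' => ?_⟩, h4⟩
  rcases Finset.mem_insert.1 he' with rfl | h5
  · exact h
  · exact h3 e' h5

theorem iota_eq_zero {e : Pr n} {f : LF n} :
    iota e f = 0 ↔ ∀ l, f ((ofLex e).1 :: l) = f ((ofLex e).2 :: l) := by
  constructor
  · intro h l
    have := congrFun h l
    simp only [iota, Pi.zero_apply] at this
    omega
  · intro h
    funext l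
    simp only [iota, Pi.zero_apply, h l, sub_self]

variable (hB : StB)
include hB

theorem af_loop (v0 : Fin n) (j : ℕ) (F : Finset (Pr n)) (e : Pr n) (h : Lp F e) :
    Af v0 j F ≤ Af v0 j (insert e F) := by
  intro f hf
  exact af_insert hf (fun l => (hB n v0).2.2.2.2.2.1 j F _ _ h f hf.1 l)

theorem af_zero (v0 : Fin n) : ∀ (m : ℕ) (R : Finset (Pr n)) (j : ℕ), cc R = m → m ≤ j →
    ∀ f ∈ Af v0 j R, f = 0 := by
  intro m
  induction m with
  | zero =>
    intro R j hR _
    exact absurd hR (Nat.pos_iff_ne_zero.1 (cc_pos v0 R))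
  | succ m ih =>
    intro R j hR hj f hf
    obtain ⟨j, rfl⟩ : ∃ i, j = i + 1 := ⟨j - 1, by omega⟩
    by_cases hc : (graphOf R).Connected
    · exact (hB n v0).2.2.2.2.1 j R hc f hf
    · obtain ⟨e, he⟩ := exists_not_lp v0 hc
      have h1 := cc_insert he
      have h2 := ih (insert e R) j (by omega) (by omega) _ ((hB n v0).1 j R e f hf)
      exact ih (insert e R) (j + 1) (by omega) (by omega) f (af_insert hf (iota_eq_zero.1 h2))

theorem uv_af (v0 : Fin n) (j : ℕ) (E R : Finset (Pr n)) (k : ℤ)
    (hk : (cc R : ℤ) - 1 - j < k) : Ex (Af v0 j) E R k := by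
  apply uv (fun F F' h => af_mono v0 j h) j (fun F e h => af_loop hB v0 j F e h) _ E R k hk
  intro R hR f hf
  exact af_zero hB v0 (cc R) R j rfl (by exact_mod_cast hR) f hf

/-- Exterior multiplication as an additive map. -/
def muHom (u : Fin n → ℤ) : LF n →+ LF n :=
  AddMonoidHom.mk' (mu u) (fun f g => by
    rcases n with _ | n
    · funext l
      rcases l with _ | ⟨a, l⟩
      · simp [mu, muAux]
      · exact a.elim0
    · exact (hB (n + 1) 0).2.2.2.1 u f g)

/-- The coloop data given by a function `u`. -/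
theorem coloop_data (v0 : Fin n) (j : ℕ) (E R : Finset (Pr n)) (e : Pr n) (u : Fin n → ℤ)
    (hu0 : u v0 = 0) (hu : ∀ e' ∈ E ∪ R, u (ofLex e').1 = u (ofLex e').2)
    (hue : u (ofLex e).2 - u (ofLex e).1 = 1) :
    Coloop (Af v0 (j + 1)) (Af v0 j) E R e (iotaHom e) (muHom hB u) where
  i_mem := by
    intro F _ f hf
    rw [Finset.union_insert]
    exact (hB n v0).1 j _ e f hf
  m_mem := by
    intro F hF f hf
    apply (hB n v0).2.1 j _ u hu0
    · intro e' he'
      apply hu
      rcases Finset.mem_union.1 he' with h | h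
      · exact Finset.mem_union_left _ (hF h)
      · exact Finset.mem_union_right _ h
    · rw [Finset.union_insert] at hf
      exact af_mono v0 j (Finset.subset_insert _ _) hf
  i_m := by
    intro F _ f hf
    rw [Finset.union_insert] at hf
    have := (hB n v0).2.2.1 j _ u e f hf
    rw [hue, one_smul] at this
    exact this
  ker_i := by
    intro F _ f hf h
    rw [Finset.union_insert]
    exact af_insert hf (iota_eq_zero.1 h)
  i_zero := by
    intro F _ f hf
    rw [Finset.union_insert] at hf
    exact iota_eq_zero.2 (hf.1.2.2 e (Finset.mem_insert_self _ _))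

omit hB in
/-- A separating function for a bridge. -/
theorem exists_u (v0 : Fin n) {F : Finset (Pr n)} {e : Pr n}
    (h1 : (graphOf (insert e F)).Connected) (h2 : ¬ (graphOf F).Connected) :
    ∃ u : Fin n → ℤ, u v0 = 0 ∧ (∀ e' ∈ F, u (ofLex e').1 = u (ofLex e').2) ∧
      u (ofLex e).2 - u (ofLex e).1 = 1 := by
  classical
  have hnl : ¬ Lp F e := by
    intro hl
    apply h2
    haveI := h1.nonempty
    exact ⟨fun a b => (reach_insert_of_lp hl).1 (h1.preconnected a b)⟩
  have hcase : (graphOf F).Reachable v0 (ofLex e).1 ∨ (graphOf F).Reachable v0 (ofLex e).2 := by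
    rcases reach_insert (h1.preconnected v0 (ofLex e).1) with h | ⟨h, _⟩ | ⟨h, _⟩
    · exact Or.inl h
    · exact Or.inl h
    · exact Or.inr h
  rcases hcase with h | h
  · refine ⟨fun w => if (graphOf F).Reachable w (ofLex e).2 then 1 else 0, ?_, ?_, ?_⟩
    · simp only
      rw [if_neg]
      intro h3
      exact hnl (h.symm.trans h3)
    · intro e' he'
      have := lp_of_mem he'
      have h3 : (graphOf F).Reachable (ofLex e').1 (ofLex e).2 ↔
          (graphOf F).Reachable (ofLex e').2 (ofLex e).2 :=
        ⟨fun h4 => (SimpleGraph.Reachable.symm this).trans h4, fun h4 => SimpleGraph.Reachable.trans this h4⟩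
      simp only [h3]
    · simp only
      have hnl' : ¬ (graphOf F).Reachable (ofLex e).1 (ofLex e).2 := hnl
      rw [if_pos (SimpleGraph.Reachable.refl _), if_neg hnl']
      norm_num
  · refine ⟨fun w => if (graphOf F).Reachable w (ofLex e).1 then -1 else 0, ?_, ?_, ?_⟩
    · simp only
      rw [if_neg]
      intro h3
      exact hnl (h3.symm.trans h)
    · intro e' he'
      have := lp_of_mem he'
      have h3 : (graphOf F).Reachable (ofLex e').1 (ofLex e).1 ↔
          (graphOf F).Reachable (ofLex e').2 (ofLex e).1 :=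
        ⟨fun h4 => (SimpleGraph.Reachable.symm this).trans h4, fun h4 => SimpleGraph.Reachable.trans this h4⟩
      simp only [h3]
    · simp only
      rw [if_pos (SimpleGraph.Reachable.refl (ofLex e).1), if_neg]
      · norm_num
      · intro h3
        exact hnl h3.symm

/-- Vanishing below. -/
theorem lv (v0 : Fin n) : ∀ (E R : Finset (Pr n)) (j : ℕ) (k : ℤ),
    (graphOf (E ∪ R)).Connected → k < (cc R : ℤ) - 1 - j → Ex (Af v0 j) E R k := by
  intro E
  induction E using Finset.induction_on with
  | empty =>
    intro R j k hc hk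
    rw [Finset.empty_union] at hc
    have := cc_connected hc
    apply ex_empty_of
    intro hk0
    exfalso
    rw [this] at hk
    push_cast at hk
    omega
  | insert e E he ih =>
    intro R j k hc hk
    rcases j with _ | j
    · apply ex_loop k he
      rintro F _ f ⟨⟨h1, h2, h3⟩, h4⟩
      refine ⟨⟨h1, h2, fun e' _ l => ?_⟩, h4⟩
      rw [h2 _ (by simp), h2 _ (by simp)]
    · by_cases hl : Lp R e
      · apply ex_loop k he
        intro F _
        have := af_loop hB v0 (j + 1) (F ∪ R) e (hl.mono Finset.subset_union_right)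
        rwa [← Finset.union_insert] at this
      · have hcc : (cc (insert e R) : ℤ) + 1 = cc R := by exact_mod_cast cc_insert hl
        have hc2 : (graphOf (E ∪ insert e R)).Connected := by
          rwa [Finset.union_insert, ← Finset.insert_union]
        by_cases hc' : (graphOf (E ∪ R)).Connected
        · apply ex_insert (fun F F' h => af_mono v0 (j + 1) h) he (ih R (j + 1) k hc' hk)
          exact ih (insert e R) (j + 1) (k - 1) hc2 (by omega)
        · rw [Finset.insert_union] at hc
          obtain ⟨u, hu0, hu, hue⟩ := exists_u v0 hc hc'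
          apply ex_coloop (fun F F' h => af_mono v0 (j + 1) h) he
            (coloop_data hB v0 j E R e u hu0 hu hue)
          apply ih (insert e R) j k hc2
          push_cast at hk
          omega

/-- The non-torsion class along a list of edges. -/
theorem path (v0 : Fin n) (T Ta : Finset (Pr n)) (hTa : Ta ⊆ T) (L : List (Pr n)) (hL : L.Nodup)
    (hcond : ∀ (P : List (Pr n)) (e : Pr n) (S : List (Pr n)), L = P ++ e :: S →
      ¬ Lp (T ∩ S.toFinset) e ∧
      (e ∈ T → e ∉ Ta → (graphOf (P.toFinset ∪ (T ∩ S.toFinset))).Connected) ∧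
      (e ∈ Ta → ∃ u : Fin n → ℤ, u v0 = 0 ∧
        (∀ e' ∈ P.toFinset ∪ (T ∩ S.toFinset), u (ofLex e').1 = u (ofLex e').2) ∧
        u (ofLex e).2 - u (ofLex e).1 = 1)) :
    ∀ (S P : List (Pr n)), L = P ++ S → ∀ (j : ℕ),
      NT (Af v0 j) P.toFinset (T ∩ S.toFinset) ((cc (T ∩ S.toFinset) : ℤ) - 1 - j) →
      NT (Af v0 (j + (Ta ∩ S.toFinset).card)) L.toFinset ∅
        ((n : ℤ) - 1 - (j + (Ta ∩ S.toFinset).card : ℕ)) := by
  intro S
  induction S with
  | nil =>
    intro P hP j h
    rw [List.append_nil] at hP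
    subst hP
    simp only [List.toFinset_nil, Finset.inter_empty, Finset.card_empty, add_zero] at h ⊢
    rw [cc_empty] at h
    exact h
  | cons e S ih =>
    intro P hP j h
    obtain ⟨c1, c2, c3⟩ := hcond P e S hP
    have hnd : (P ++ e :: S).Nodup := hP ▸ hL
    have heP : e ∉ P.toFinset := by
      rw [List.mem_toFinset]
      intro hh
      have := (List.nodup_append.1 hnd).2.2 e hh e (List.mem_cons_self)
      exact this rfl
    have heS : e ∉ S.toFinset := by
      rw [List.mem_toFinset]
      have := (List.nodup_append.1 hnd).2.1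
      exact (List.nodup_cons.1 this).1
    have hP' : L = (P ++ [e]) ++ S := by rw [hP]; simp
    have hPf : (P ++ [e]).toFinset = insert e P.toFinset := by
      ext x; simp [or_comm]
    have hcc : (cc (insert e (T ∩ S.toFinset)) : ℤ) + 1 = cc (T ∩ S.toFinset) := by
      exact_mod_cast cc_insert c1
    have hA : ∀ j : ℕ, ∀ F F' : Finset (Pr n), F ⊆ F' → Af v0 j F' ≤ Af v0 j F :=
      fun j F F' h => af_mono v0 j h
    rw [List.toFinset_cons] at h
    by_cases heT : e ∈ T
    · have hTi : T ∩ insert e S.toFinset = insert e (T ∩ S.toFinset) := by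
        rw [Finset.inter_insert_of_mem heT]
      rw [hTi] at h
      by_cases heTa : e ∈ Ta
      · obtain ⟨u, hu0, hu, hue⟩ := c3 heTa
        have hstep := nt_coloop heP (coloop_data hB v0 j _ _ e u hu0 hu hue) h
        have hk : (cc (insert e (T ∩ S.toFinset)) : ℤ) - 1 - j
            = (cc (T ∩ S.toFinset) : ℤ) - 1 - ((j + 1 : ℕ) : ℤ) := by
          push_cast; omega
        rw [hk, ← hPf] at hstep
        have := ih (P ++ [e]) hP' (j + 1) hstep
        have hcard : (Ta ∩ (e :: S).toFinset).card = (Ta ∩ S.toFinset).card + 1 := by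
          rw [List.toFinset_cons, Finset.inter_insert_of_mem heTa,
            Finset.card_insert_of_notMem (fun hh => heS (Finset.mem_inter.1 hh).2)]
        rw [hcard]
        have hj : j + ((Ta ∩ S.toFinset).card + 1) = j + 1 + (Ta ∩ S.toFinset).card := by ring
        rw [hj]
        exact this
      · have hstep := nt_contr (R := T ∩ S.toFinset) (hA j) heP
          (k := (cc (T ∩ S.toFinset) : ℤ) - 1 - j)
          (by
            have hk : (cc (insert e (T ∩ S.toFinset)) : ℤ) - 1 - j
                = (cc (T ∩ S.toFinset) : ℤ) - 1 - j - 1 := by omega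
            rw [← hk]
            exact h)
          (lv hB v0 _ _ j _ (c2 heT heTa) (by omega))
        rw [← hPf] at hstep
        have := ih (P ++ [e]) hP' j hstep
        have hcard : (Ta ∩ (e :: S).toFinset) = (Ta ∩ S.toFinset) := by
          rw [List.toFinset_cons, Finset.inter_insert_of_notMem heTa]
        rw [hcard]
        exact this
    · have hTi : T ∩ insert e S.toFinset = T ∩ S.toFinset := by
        rw [Finset.inter_insert_of_notMem heT]
      rw [hTi] at h
      have hstep := nt_del (hA j) heP h (uv_af hB v0 j _ _ _ (by omega))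
      rw [← hPf] at hstep
      have := ih (P ++ [e]) hP' j hstep
      have heTa : e ∉ Ta := fun hh => heT (hTa hh)
      have hcard : (Ta ∩ (e :: S).toFinset) = (Ta ∩ S.toFinset) := by
        rw [List.toFinset_cons, Finset.inter_insert_of_notMem heTa]
      rw [hcard]
      exact this

/-- The starting class. -/
theorem nt_start (v0 : Fin n) (R : Finset (Pr n)) (hR : (graphOf R).Connected) :
    NT (Af v0 0) ∅ R ((cc R : ℤ) - 1 - (0 : ℕ)) := by
  rw [cc_connected hR]
  have hk : ((1 : ℕ) : ℤ) - 1 - ((0 : ℕ) : ℤ) = 0 := by norm_num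
  rw [hk]
  let δ : LF n := fun l => if l = [] then 1 else 0
  refine ⟨fun F => if F = ∅ then δ else 0, ⟨?_, ?_⟩, ?_, ?_⟩
  · intro F hF
    simp only
    rw [if_neg]
    rintro rfl
    exact hF ⟨Finset.Subset.refl _, by simp⟩
  · intro F
    simp only
    split_ifs
    · refine ⟨⟨fun p a b r => ?_, fun l hl => ?_, fun e _ l => ?_⟩, fun l => ?_⟩
      · simp [δ]
      · simp only [δ]
        rw [if_neg]
        rintro rfl
        exact hl rfl
      · simp [δ]
      · simp [δ]
    · exact AddSubgroup.zero_mem _
  · funext F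
    simp [bd]
  · rintro N hN ⟨w, _, hw'⟩
    have := congrFun (congrFun hw' ∅) []
    simp [bd, δ] at this
    exact hN this.symm

end Pool.Agent.R864.CSH
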